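import Pool.Agent.MP_71ac24_nt.ZY.DefsA

namespace Pool.Agent.MP_71ac24_nt.ZY
open Finset Real
open scoped ComplexConjugate
open Pool.Agent.MP_71ac24_nt.H14 (ei ei_add norm_ei ei_zero conj_ei norm_ei_sub)
open Pool.Agent.MP_71ac24_nt.H17 Pool.Agent.MP_71ac24_nt.H17R

-- helper lemmas of this row: prefix ybly_

theorem ybly_row (hHSY : HSY_s) : BLY_s := by
  intro ε hε
  obtain ⟨C₀, hC₀, H₀⟩ := im_zero
  obtain ⟨C₁, hC₁, H₁⟩ := hHSY ε hε
  refine ⟨5 * C₀ + √C₁, by positivity, fun Y N T W a y hN hNY hT hY hW ha hy hYB => ?_⟩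
  have N0 : (0 : ℝ) < N := by exact_mod_cast hN
  have L0 : 0 ≤ ∑ t ∈ W, ‖DP N a t‖ ^ 2 := sum_nonneg fun _ _ => sq_nonneg _
  rcases L0.eq_or_lt with h | h
  · rw [← h]; positivity
  have Y1 : 1 ≤ (Y : ℝ) ^ ε := one_le_rpow (by exact_mod_cast hN.trans hNY) hε.le
  have h1 := H₁ Y N T W y hN hNY hT hY hW hy hYB
  have hk' := dua_key N hN W a ha (fun s => Im N s 0) (b := C₀ * N) (by positivity)
    fun s => H₀ N s
  have y0 : 0 ≤ (N : ℝ) * y := by positivity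
  have h2 : (N : ℝ) * y * (#W : ℝ) ^ 2 = (√(N * y) * #W) ^ 2 := by rw [mul_pow, sq_sqrt y0]
  have F1 : 0 ≤ √(N * y) * (#W : ℝ) := by positivity
  rw [h2] at h1
  generalize (Y : ℝ) ^ ε = u at Y1 h1 ⊢
  generalize √(N * y) * (#W : ℝ) = F at F1 h1 ⊢
  have h3 := blk_cs W (fun t => DP N a t)
    (fun t t' => Gs N ((t - t' : ℤ) : ℝ) - Im N ((t - t' : ℤ) : ℝ) 0) (g := √C₁ * u * F)
    (by positivity) (le_trans h1 (by
      rw [mul_pow, mul_pow, sq_sqrt hC₁.le]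
      have : u ≤ u ^ 2 := by nlinarith only [Y1]
      gcongr))
  have h4 := hk'.trans (add_le_add le_rfl h3)
  generalize ∑ t ∈ W, ‖DP N a t‖ ^ 2 = L at h h4 ⊢
  rw [div_le_iff₀ N0] at h4
  refine le_of_mul_le_mul_right ?_ h
  have h5 : (N : ℝ) ≤ u * (N + F) :=
    (le_add_of_nonneg_right F1).trans (le_mul_of_one_le_left (by positivity) Y1)
  have h6 := mul_le_mul_of_nonneg_left h5 (show 0 ≤ 5 * C₀ * L * N by positivity)
  have h7 : 0 ≤ √C₁ * u * N * L * N := by positivity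
  linarith only [h4, h6, h7]

end Pool.Agent.MP_71ac24_nt.ZY
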