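import Pool.Agent.MP_71ac24_nt.ZY.DefsA

namespace Pool.Agent.MP_71ac24_nt.ZY
open Finset Real
open scoped ComplexConjugate
open Pool.Agent.MP_71ac24_nt.H14 (ei ei_add norm_ei ei_zero conj_ei norm_ei_sub)
open Pool.Agent.MP_71ac24_nt.H17 Pool.Agent.MP_71ac24_nt.H17R

-- helper lemmas of this row: prefix ycore_

theorem ycore_a {c N R V y : ℝ} (c0 : 0 ≤ c) (_N0 : 0 ≤ N) (R0 : 0 < R) (y0 : 0 ≤ y)
    (h : R * V ^ 4 ≤ c * (N ^ 4 + N ^ 3 * √y * R)) :
    R * V ^ 4 ≤ 2 * c * N ^ 4 ∨ V ^ 8 ≤ 4 * c ^ 2 * N ^ 6 * y := by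
  rcases le_total (N ^ 3 * √y * R) (N ^ 4) with g | g
  · exact .inl (by nlinarith [mul_le_mul_of_nonneg_left g c0])
  · have h1 : V ^ 4 ≤ 2 * c * N ^ 3 * √y :=
      le_of_mul_le_mul_left (by nlinarith [mul_le_mul_of_nonneg_left g c0]) R0
    have h2 := pow_le_pow_left₀ (by positivity) h1 2
    rw [mul_pow _ √y, sq_sqrt y0] at h2
    exact .inr (by linarith)

theorem ycore_b {c N R V y y' H S : ℝ} (c0 : 0 ≤ c) (N0 : 0 ≤ N) (R0 : 0 < R) (y0 : 0 < y)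
    (y1 : 0 ≤ y') (H0 : 0 < H) (h1 : y * H * R ^ 2 ≤ 2 * S)
    (h : S * V ^ 2 ≤ c * (N * (N * H ^ 2 * R + H * R ^ 2 * √(N * y * y')))) :
    y * R * V ^ 2 ≤ 4 * c * N ^ 2 * H ∨ y * V ^ 4 ≤ 16 * c ^ 2 * N ^ 3 * y' := by
  have h2 := mul_le_mul_of_nonneg_right h1 (sq_nonneg V)
  have cN := mul_nonneg c0 N0
  rcases le_total (H * R ^ 2 * √(N * y * y')) (N * H ^ 2 * R) with g | g
  · refine .inl (le_of_mul_le_mul_left ?_ (mul_pos H0 R0))
    nlinarith [mul_le_mul_of_nonneg_left g cN]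
  · have h3 : y * V ^ 2 ≤ 4 * c * N * √(N * y * y') :=
      le_of_mul_le_mul_left (by nlinarith [mul_le_mul_of_nonneg_left g cN])
        (mul_pos H0 (pow_pos R0 2))
    have h4 := pow_le_pow_left₀ (by positivity) h3 2
    rw [mul_pow _ √(N * y * y'), sq_sqrt (by positivity)] at h4
    exact .inr (le_of_mul_le_mul_left (by linarith) y0)

theorem ycore_c {c N T R V y H : ℝ} (c1 : 1 ≤ c) (N0 : 0 ≤ N) (T0 : 0 ≤ T) (R0 : 0 ≤ R) (_V0 : 0 ≤ V)
    (y0 : 0 ≤ y) (H0 : 0 < H) (h1 : V ^ 8 ≤ 4 * c ^ 2 * N ^ 6 * y)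
    (h2 : y * H * R * V ^ 6 ≤ 1056 * c ^ 4 * N ^ 4 * T)
    (h : y ≤ c ∨ y ^ 2 * R ≤ (c * H) ^ 2 ∨ y ^ 12 * R ^ 5 ≤ c ^ 12 * T ^ 3) :
    Alt (10 ^ 9 * c ^ 36) N T R V := by
  have c0 : 0 ≤ c := by linarith
  have p : ∀ (k : ℕ) (K : ℝ), k ≤ 36 → K ≤ 10 ^ 9 → K * c ^ k ≤ 10 ^ 9 * c ^ 36 := fun k K hk hK =>
    mul_le_mul hK (pow_le_pow_right₀ c1 hk) (by positivity) (by norm_num)
  rcases h with h | h | h
  · refine .inl ((le_of_sq_le_sq (a := V ^ 4) (b := 2 * c ^ 2 * N ^ 3) ?_ (by positivity)).trans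
      (mul_le_mul_of_nonneg_right (p 2 2 (by norm_num) (by norm_num)) (by positivity)))
    have : y ≤ c ^ 2 := h.trans (le_self_pow₀ c1 two_ne_zero)
    calc _ = V ^ 8 := by ring
      _ ≤ 4 * c ^ 2 * N ^ 6 * c ^ 2 := h1.trans (by gcongr)
      _ = _ := by ring
  · have a1 := mul_le_mul (pow_le_pow_left₀ (by positivity) h2 2) h (by positivity) (by positivity)
    have a2 : y ^ 4 * R ^ 3 * V ^ 12 ≤ 1056 ^ 2 * c ^ 10 * N ^ 8 * T ^ 2 :=
      le_of_mul_le_mul_left (by linarith) (pow_pos H0 2)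
    have a3 := mul_le_mul_of_nonneg_right (pow_le_pow_left₀ (by positivity) h1 4)
      (show 0 ≤ R ^ 3 * V ^ 12 by positivity)
    have a4 := mul_le_mul_of_nonneg_left a2 (show 0 ≤ 4 ^ 4 * c ^ 8 * N ^ 24 by positivity)
    have a5 := mul_le_mul_of_nonneg_right (p 18 (4 ^ 4 * 1056 ^ 2) (by norm_num) (by norm_num))
      (show 0 ≤ T ^ 2 * N ^ 32 by positivity)
    exact .inr (.inr (.inr (.inl (by linarith))))
  · have a3 := mul_le_mul_of_nonneg_right (pow_le_pow_left₀ (by positivity) h1 12)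
      (show 0 ≤ R ^ 5 by positivity)
    have a4 := mul_le_mul_of_nonneg_left h (show 0 ≤ 4 ^ 12 * c ^ 24 * N ^ 72 by positivity)
    have a5 := mul_le_mul_of_nonneg_right (p 36 (4 ^ 12) (by norm_num) (by norm_num))
      (show 0 ≤ T ^ 3 * N ^ 72 by positivity)
    exact .inr (.inr (.inr (.inr (by linarith))))

theorem ycore_row (hSQR : SQR_s) (hSCH : SCH_s) (hDUA : DUA_s) (hMAX : MAX_s) (hL2K : L2K_s) : CORE_s := by
  intro ε hε
  obtain ⟨η, η0, η1, η2⟩ : ∃ η : ℝ, 0 < η ∧ η ≤ 1 / 2 ∧ η * (36 : ℕ) ≤ ε := by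
    refine ⟨min (ε / 36) (1 / 2), lt_min (by positivity) (by norm_num), min_le_right _ _, ?_⟩
    have := min_le_left (ε / 36) (1 / 2)
    push_cast
    linarith
  obtain ⟨C1, c1, hS⟩ := hSQR η η0
  obtain ⟨C2, c2, hC⟩ := hSCH η η0
  obtain ⟨C3, c3, hD⟩ := hDUA η η0
  obtain ⟨C4, c4, hL⟩ := hL2K η η0
  obtain ⟨K, K1, k1, k2, k3, k4⟩ : ∃ K : ℝ, 1 ≤ K ∧ C1 ≤ K ∧ C2 ≤ K ∧ C3 ≤ K ∧ C4 ≤ K :=
    ⟨1 + C1 + C2 + C3 + C4, by linarith, by linarith, by linarith, by linarith, by linarith⟩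
  refine ⟨10 ^ 9 * K ^ 36, by positivity, fun Y N T W a V hN hNY hT hTY hW hR hB => ?_⟩
  have N4 : (4 : ℝ) ≤ N := by exact_mod_cast hN
  have T1 : (1 : ℝ) ≤ T := by exact_mod_cast hT
  have R1 : (1 : ℝ) ≤ #W := by exact_mod_cast hR
  have TY2 : 1024 * (T : ℝ) ^ 2 ≤ Y := by exact_mod_cast hTY
  have Y1 : (1 : ℝ) ≤ Y := by nlinarith
  have TY : T ≤ Y := by nlinarith
  have V0 := hB.2.1
  have u1 : 1 ≤ (Y : ℝ) ^ η := one_le_rpow Y1 η0.le
  have u2 : 32 * (Y : ℝ) ^ η * T ≤ Y := by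
    have a1 : (Y : ℝ) ^ η ≤ √Y := by
      rw [sqrt_eq_rpow]; exact rpow_le_rpow_of_exponent_le Y1 η1
    have a2 : 32 * (T : ℝ) ≤ √Y := le_sqrt_of_sq_le (by linarith)
    have a3 := mul_le_mul a1 a2 (by positivity) (sqrt_nonneg _)
    rw [mul_self_sqrt (by linarith)] at a3
    linarith
  have u3 : ((Y : ℝ) ^ η) ^ 36 ≤ (Y : ℝ) ^ ε := by
    rw [← rpow_mul_natCast (by linarith)]
    exact rpow_le_rpow_of_exponent_le Y1 η2
  replace hS := fun y => hS Y N T W a V y (by omega) hNY hT TY hW hB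
  replace hC := fun H h1 h2 => hC Y N T H W a V (by omega) h1 h2 hW hB
  replace hD := fun H y y' h1 h2 => hD Y N T H W a V y y' hN h1 h2 hT TY hW hB
  replace hL := fun H y h1 h2 => hL Y H T W y h1 h2 TY hW hR
  generalize (Y : ℝ) ^ η = u at u1 u2 u3 hS hC hD hL
  obtain ⟨c, hc⟩ : ∃ c, c = K * u := ⟨_, rfl⟩
  have uc : u ≤ c := hc ▸ le_mul_of_one_le_left (by linarith) K1
  have cc : 1 ≤ c := u1.trans uc
  have c0 : 0 ≤ c := by linarith
  have q : ∀ {C : ℝ}, C ≤ K → C * u ≤ c := fun h => hc ▸ mul_le_mul_of_nonneg_right h (by linarith)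
  suffices h : Alt (10 ^ 9 * c ^ 36) N T #W V by
    have e : 10 ^ 9 * c ^ 36 ≤ 10 ^ 9 * K ^ 36 * (Y : ℝ) ^ ε := by
      rw [hc, mul_pow, mul_assoc]; gcongr
    refine h.imp (fun g => g.trans ?_) fun h => h.imp (fun g => g.trans ?_) fun h =>
      h.imp (fun g => g.trans ?_) fun h => h.imp (fun g => g.trans ?_) fun g => g.trans ?_ <;> gcongr
  have p : ∀ (k : ℕ) (M : ℝ), k ≤ 36 → M ≤ 10 ^ 9 → M * c ^ k ≤ 10 ^ 9 * c ^ 36 := fun k M hk hM =>
    mul_le_mul hM (pow_le_pow_right₀ cc hk) (by positivity) (by norm_num)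
  have N0 : (0 : ℝ) < N := by linarith
  have T0 : (0 : ℝ) < T := by linarith
  have R0 : (0 : ℝ) < #W := by linarith
  have sq : ∀ y, 1 ≤ y → YB W (4 * u * T / N ^ 2) y →
      Alt (10 ^ 9 * c ^ 36) N T #W V ∨ V ^ 8 ≤ 4 * c ^ 2 * N ^ 6 * y := fun y y1 hy => by
    refine (ycore_a c0 N0.le R0 (by linarith) ((hS y y1 hy).trans
      (mul_le_mul_of_nonneg_right (q k1) (by positivity)))).imp_left fun g => .inr (.inl (g.trans ?_))
    have := p 1 2 (by norm_num) (by norm_num)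
    rw [pow_one] at this
    gcongr
  have one : ∀ M : ℝ, M ≤ 10 ^ 9 → V ^ 4 ≤ M * c ^ 2 * N ^ 3 → Alt (10 ^ 9 * c ^ 36) N T #W V :=
    fun M hM g => .inl (g.trans (mul_le_mul_of_nonneg_right (p 2 M (by norm_num) hM) (by positivity)))
  rcases lt_or_ge (4 * u * T / N ^ 2) 1 with L0 | L0
  · refine (sq 1 le_rfl fun H h1 h2 => absurd (h2.trans_lt L0) (not_lt.2 (by exact_mod_cast h1))).elim id fun g =>
      one 2 (by norm_num) (le_of_sq_le_sq ?_ (by positivity))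
    have : c ^ 2 ≤ c ^ 4 := pow_le_pow_right₀ cc (by norm_num)
    calc _ = V ^ 8 := by ring
      _ ≤ 4 * c ^ 4 * N ^ 6 * 1 := g.trans (by gcongr)
      _ = _ := by ring
  obtain ⟨H, y, H1, H2, y1, hy, s1, s2⟩ := hMAX W _ hR L0
  refine (sq y y1 hy).elim id fun st => ?_
  have H0 : (0 : ℝ) < H := by exact_mod_cast H1
  have H1' : (1 : ℝ) ≤ H := by exact_mod_cast H1
  have H3 : H * (N : ℝ) ^ 2 ≤ 4 * u * T := (le_div_iff₀ (by positivity)).1 H2
  have H4 : 4 * N * H ≤ Y := by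
    have : 4 * (N : ℝ) * H ≤ Y := by nlinarith [mul_pos N0 H0]
    exact_mod_cast this
  have H5 : H ≤ Y := by nlinarith
  obtain ⟨G, z, G1, G2, z1, hz, r1, r2⟩ := hMAX W (max (32 * u * T / (N * H)) 1) hR (le_max_right _ _)
  have G0 : (0 : ℝ) < G := by exact_mod_cast G1
  rcases ycore_b c0 N0.le R0 (by linarith) (by linarith) H0 s1
    ((hD H y z H1 H4 y1 z1 (fun k a b => hy k a (b.trans H2))
      fun k a b => hz k a (b.trans (le_max_left _ _))).trans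
        (mul_le_mul_of_nonneg_right (q k3) (by positivity))) with g | g
  · have a1 : y * #W * V ^ 2 ≤ 16 * c ^ 2 * T := by
      have := mul_le_mul_of_nonneg_left H3 (show 0 ≤ 4 * c by positivity)
      have := mul_le_mul_of_nonneg_left uc (show 0 ≤ 16 * c * T by positivity)
      linarith
    have a2 := mul_le_mul_of_nonneg_right st (show 0 ≤ #W * V ^ 2 by positivity)
    have a3 := mul_le_mul_of_nonneg_left a1 (show 0 ≤ 4 * c ^ 2 * N ^ 6 by positivity)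
    have a4 := mul_le_mul_of_nonneg_right (p 4 64 (by norm_num) (by norm_num))
      (show (0 : ℝ) ≤ T * N ^ 6 by positivity)
    exact .inr (.inr (.inl (by linarith)))
  rcases le_or_gt (G : ℝ) (4 * u * T / N ^ 2) with G3 | G3
  · have a1 : z ≤ 2 * y := le_of_mul_le_mul_right (by linarith [hy G G1 G3])
      (show (0 : ℝ) < G * (#W : ℝ) ^ 2 by positivity)
    have a2 := mul_le_mul_of_nonneg_left a1 (show 0 ≤ 16 * c ^ 2 * N ^ 3 by positivity)
    exact one 32 (by norm_num) (le_of_mul_le_mul_left (by linarith) (show 0 < y by linarith))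
  have G4 : (G : ℝ) ≤ 32 * u * T / (N * H) := (le_max_iff.1 G2).resolve_right (by linarith)
  have G5 : G * ((N : ℝ) * H) ≤ 32 * u * T := (le_div_iff₀ (by positivity)).1 G4
  have G6 : G ≤ Y := by
    have : (G : ℝ) ≤ Y := by nlinarith [mul_le_mul N4 H1' zero_le_one N0.le]
    exact_mod_cast this
  have HG : (H : ℝ) ≤ G := by linarith
  have b1 := (hC G G1 G6).trans (mul_le_mul_of_nonneg_right (q k2) (by positivity))
  have b2 : z * G * #W * V ^ 2 ≤ 2 * c * N * (T + N * G ^ 2) :=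
    le_of_mul_le_mul_left (by linarith [mul_le_mul_of_nonneg_right r1 (sq_nonneg V)]) R0
  have b3 : H * (T + N * G ^ 2) ≤ 33 * c * T * (G : ℝ) := by
    have a1 := mul_le_mul_of_nonneg_right HG T0.le
    have a2 := mul_le_mul_of_nonneg_right G5 G0.le
    have a3 := mul_le_mul_of_nonneg_right uc (show (0 : ℝ) ≤ T * G by positivity)
    have a4 := mul_le_mul_of_nonneg_right cc (show (0 : ℝ) ≤ T * G by positivity)
    linarith
  have b4 : z * H * #W * V ^ 2 ≤ 66 * c ^ 2 * N * T := le_of_mul_le_mul_left (by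
    have a1 := mul_le_mul_of_nonneg_left b2 H0.le
    have a2 := mul_le_mul_of_nonneg_left b3 (show 0 ≤ 2 * c * N by positivity)
    linarith) G0
  have b5 : y * H * #W * V ^ 6 ≤ 1056 * c ^ 4 * N ^ 4 * T := by
    have a1 := mul_le_mul_of_nonneg_right g (show (0 : ℝ) ≤ H * #W * V ^ 2 by positivity)
    have a2 := mul_le_mul_of_nonneg_left b4 (show 0 ≤ 16 * c ^ 2 * N ^ 3 by positivity)
    linarith
  have d0 : 0 ≤ C4 * u := by positivity
  have d1 := q k4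
  refine ycore_c cc N0.le T0.le R0.le V0 (by linarith) H0 st b5
    ((hL H y H1 H5 (by linarith) (by linarith)).imp (fun h => h.trans d1) fun h =>
      h.imp (fun h => h.trans ?_) fun h => h.trans ?_) <;> gcongr

end Pool.Agent.MP_71ac24_nt.ZY
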