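import Pool.Agent.MP_71ac24_nt.ZY.DefsA

namespace Pool.Agent.MP_71ac24_nt.ZY
open Finset Real
open scoped ComplexConjugate
open Pool.Agent.MP_71ac24_nt.H14 (ei ei_add norm_ei ei_zero conj_ei norm_ei_sub)
open Pool.Agent.MP_71ac24_nt.H17 Pool.Agent.MP_71ac24_nt.H17R

-- helper lemmas of this row: prefix ydsy_

theorem ydsy_sum (W : Finset ℤ) (Q : ℕ) (I : Finset ℕ) (hI : ∀ m ∈ I, 1 ≤ m ∧ m ≤ Q)
    (hr : ∀ m ∈ I, ∀ m' ∈ I, m ≤ 2 * m') :
    DS W I ≤ ∑ d ∈ Icc 1 Q, SF W (fr (Q / d)) := by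
  classical
  have hm : ∀ p ∈ I ×ˢ I, Nat.gcd p.1 p.2 ∈ Icc 1 Q := fun p hp => by
    have h := hI _ (mem_product.1 hp).1
    exact mem_Icc.2 ⟨Nat.gcd_pos_of_pos_left _ (by omega),
      (Nat.gcd_le_left _ (by omega)).trans h.2⟩
  rw [lng_swap, ← sum_fiberwise_of_maps_to hm]
  refine sum_le_sum fun d hd => ?_
  have d0 : 0 < d := (mem_Icc.1 hd).1
  have dR : (d : ℝ) ≠ 0 := by exact_mod_cast d0.ne'
  have key : ∀ p ∈ (I ×ˢ I).filter fun p => Nat.gcd p.1 p.2 = d,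
      ∃ f ∈ fr (Q / d), p = (d * f.1, d * f.2) := fun p hp => by
    obtain ⟨hp, e⟩ := mem_filter.1 hp
    have h1 := hI _ (mem_product.1 hp).1
    have h2 := hI _ (mem_product.1 hp).2
    have h3 := hr _ (mem_product.1 hp).1 _ (mem_product.1 hp).2
    have h4 := hr _ (mem_product.1 hp).2 _ (mem_product.1 hp).1
    obtain ⟨a, ha⟩ : d ∣ p.1 := e ▸ Nat.gcd_dvd_left _ _
    obtain ⟨b, hb⟩ : d ∣ p.2 := e ▸ Nat.gcd_dvd_right _ _
    refine ⟨(a, b), mem_fr.2 ⟨⟨?_, ?_⟩, ⟨?_, ?_⟩, ?_, ?_, ?_⟩, Prod.ext ha hb⟩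
    · exact Nat.pos_of_ne_zero fun h : a = 0 => by rw [h] at ha; omega
    · exact (Nat.le_div_iff_mul_le d0).2 (by rw [mul_comm, ← ha]; exact h1.2)
    · exact Nat.pos_of_ne_zero fun h : b = 0 => by rw [h] at hb; omega
    · exact (Nat.le_div_iff_mul_le d0).2 (by rw [mul_comm, ← hb]; exact h2.2)
    · rw [ha, hb, Nat.gcd_mul_left] at e
      exact Nat.eq_of_mul_eq_mul_left d0 (e.trans (mul_one d).symm)
    · exact Nat.le_of_mul_le_mul_left (by rw [mul_left_comm, ← ha, ← hb]; omega) d0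
    · exact Nat.le_of_mul_le_mul_left (by rw [mul_left_comm, ← ha, ← hb]; omega) d0
  have sub : ((I ×ˢ I).filter fun p => Nat.gcd p.1 p.2 = d) ⊆
      (fr (Q / d)).image fun f => (d * f.1, d * f.2) := fun p hp => by
    obtain ⟨f, hf, e⟩ := key p hp
    exact mem_image.2 ⟨f, hf, e.symm⟩
  refine (sum_le_sum_of_subset_of_nonneg sub fun _ _ _ => sq_nonneg _).trans ?_
  refine (sum_image_le_of_nonneg fun _ _ => sq_nonneg _).trans_eq ?_
  refine sum_congr rfl fun f hf => ?_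
  obtain ⟨⟨a1, -⟩, ⟨b1, -⟩, -⟩ := mem_fr.1 hf
  have a0 : (f.1 : ℝ) ≠ 0 := by exact_mod_cast (show f.1 ≠ 0 by omega)
  have b0 : (f.2 : ℝ) ≠ 0 := by exact_mod_cast (show f.2 ≠ 0 by omega)
  simp only [lg, Nat.cast_mul, Real.log_mul dR a0, Real.log_mul dR b0, add_sub_add_left_eq_sub]

theorem ydsy_row : DSY_s := by
  intro ε hε
  refine ⟨1 + 1 / ε, by positivity, fun Y Q W I y Q1 QY y0 hI hr hY => ?_⟩
  have Y1 : (1 : ℝ) ≤ Y := by exact_mod_cast Q1.trans QY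
  have q1 : (1 : ℝ) ≤ Q := by exact_mod_cast Q1
  have qY : (Q : ℝ) ≤ Y := by exact_mod_cast QY
  have u1 : 1 ≤ (Y : ℝ) ^ ε := Real.one_le_rpow Y1 hε.le
  have t2 : 1 + Real.log (Q : ℝ) ≤ (1 + 1 / ε) * (Y : ℝ) ^ ε := by
    have a1 := Real.log_le_rpow_div (Nat.cast_nonneg Y) hε
    have a2 := Real.log_le_log (by linarith only [q1]) qY
    rw [add_mul, one_div, mul_comm ε⁻¹, ← div_eq_mul_inv]
    linarith only [u1, a1, a2]
  have key : ∀ d ∈ Icc 1 Q, SF W (fr (Q / d)) ≤ Q * y * (#W : ℝ) ^ 2 * (1 / d) := by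
    intro d hd
    obtain ⟨d1, d2⟩ := mem_Icc.1 hd
    have H1 : 1 ≤ Q / d := (Nat.le_div_iff_mul_le d1).2 (by omega)
    have H2 : ((Q / d : ℕ) : ℝ) ≤ Q := by exact_mod_cast Nat.div_le_self Q d
    have H3 : ((Q / d : ℕ) : ℝ) ≤ Q * (1 / d) := by
      rw [mul_one_div]
      exact Nat.cast_div_le
    refine (hY _ H1 H2).trans ?_
    calc _ ≤ y * (Q * (1 / d)) * (#W : ℝ) ^ 2 := by gcongr
      _ = _ := by ring
  refine (ydsy_sum W Q I hI hr).trans ((sum_le_sum key).trans ?_)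
  rw [← mul_sum, mul_comm]
  exact mul_le_mul_of_nonneg_right ((MP_e4c747_an.harm_le _).trans t2) (by positivity)

end Pool.Agent.MP_71ac24_nt.ZY
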