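import Pool.Agent.MP_71ac24_nt.ZY.DefsA

namespace Pool.Agent.MP_71ac24_nt.ZY
open Finset Real
open scoped ComplexConjugate
open Pool.Agent.MP_71ac24_nt.H14 (ei ei_add norm_ei ei_zero conj_ei norm_ei_sub)
open Pool.Agent.MP_71ac24_nt.H17 Pool.Agent.MP_71ac24_nt.H17R

-- helper lemmas of this row: prefix ydu1_

lemma ydu1_cs {ι κ : Type} (A : Finset ι) (B : Finset κ) (x y : ι → κ → ℝ) :
    (∑ a ∈ A, ∑ b ∈ B, x a b * y a b) ^ 2 ≤
      (∑ a ∈ A, ∑ b ∈ B, x a b ^ 2) * ∑ a ∈ A, ∑ b ∈ B, y a b ^ 2 := by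
  have h := sum_mul_sq_le_sq_mul_sq (A ×ˢ B) (fun p => x p.1 p.2) fun p => y p.1 p.2
  simpa only [sum_product] using h

lemma ydu1_gram (M : ℕ) (W : Finset ℤ) (I : Finset ℕ) (β : ℤ → ℂ) :
    ((∑ b ∈ I, ∑ m ∈ Icc 1 (3 * M), wt (m / M) *
      ‖∑ t ∈ W, β t * ei (t * (Real.log m - Real.log b))‖ ^ 2 : ℝ) : ℂ) =
      ∑ t ∈ W, ∑ t' ∈ W, β t * conj (β t') *
        (Gs M ((t - t' : ℤ) : ℝ) * ZI I (-((t - t' : ℤ) : ℝ))) := by
  have e1 : ∀ b m : ℕ, ((wt (m / M) *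
      ‖∑ t ∈ W, β t * ei (t * (Real.log m - Real.log b))‖ ^ 2 : ℝ) : ℂ) =
      ∑ t ∈ W, ∑ t' ∈ W, β t * conj (β t') * ((((wt (m / M) : ℝ) : ℂ) *
        ei (((t - t' : ℤ) : ℝ) * Real.log m)) * ei (-((t - t' : ℤ) : ℝ) * Real.log b)) := by
    intro b m
    rw [Complex.ofReal_mul, Complex.ofReal_pow, ← Complex.mul_conj', map_sum, sum_mul_sum, mul_sum]
    refine sum_congr rfl fun t _ => ?_
    rw [mul_sum]
    refine sum_congr rfl fun t' _ => ?_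
    have e : ei (t * (Real.log m - Real.log b)) * ei (-(t' * (Real.log m - Real.log b))) =
        ei (((t - t' : ℤ) : ℝ) * Real.log m) * ei (-((t - t' : ℤ) : ℝ) * Real.log b) := by
      rw [← ei_add, ← ei_add]
      congr 1
      push_cast
      ring
    rw [map_mul, conj_ei]
    linear_combination ((wt (m / M) : ℝ) : ℂ) * β t * conj (β t') * e
  rw [Complex.ofReal_sum]
  have e2 : ∀ b : ℕ, ((∑ m ∈ Icc 1 (3 * M), wt (m / M) *
      ‖∑ t ∈ W, β t * ei (t * (Real.log m - Real.log b))‖ ^ 2 : ℝ) : ℂ) =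
      ∑ t ∈ W, ∑ t' ∈ W, β t * conj (β t') *
        (Gs M ((t - t' : ℤ) : ℝ) * ei (-((t - t' : ℤ) : ℝ) * Real.log b)) := by
    intro b
    rw [Complex.ofReal_sum, sum_congr rfl fun m _ => e1 b m, sum_comm]
    refine sum_congr rfl fun t _ => ?_
    rw [sum_comm]
    refine sum_congr rfl fun t' _ => ?_
    rw [Gs, sum_mul, mul_sum]
  rw [sum_congr rfl fun b _ => e2 b, sum_comm]
  refine sum_congr rfl fun t _ => ?_
  rw [sum_comm]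
  refine sum_congr rfl fun t' _ => ?_
  rw [ZI, mul_sum, mul_sum]

lemma ydu1_ZI (I : Finset ℕ) (s : ℝ) : ‖ZI I s‖ ≤ #I := by
  refine (norm_sum_le _ _).trans (le_of_eq ?_)
  simp only [norm_ei, sum_const, nsmul_eq_mul, mul_one]

theorem ydu1_row : DU1_s := by
  obtain ⟨C₀, hC₀, H₀⟩ := im_zero
  refine ⟨5 * C₀, by positivity, fun M W I c β hM hβ => ?_⟩
  have M0 : (0 : ℝ) < M := by exact_mod_cast hM
  obtain ⟨g, hg⟩ : ∃ g : ℕ → ℕ → ℂ,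
      ∀ b m, g b m = ∑ t ∈ W, β t * ei (t * (Real.log m - Real.log b)) := ⟨_, fun _ _ => rfl⟩
  have e1 : ∑ t ∈ W, β t * ∑ b ∈ I, ∑ m ∈ Ioc M (2 * M),
      c m b * ei (t * (Real.log m - Real.log b)) =
      ∑ b ∈ I, ∑ m ∈ Ioc M (2 * M), c m b * g b m := by
    simp only [hg, mul_sum]
    rw [sum_comm]
    refine sum_congr rfl fun b _ => ?_
    rw [sum_comm]
    exact sum_congr rfl fun m _ => sum_congr rfl fun t _ => by ring
  have h1 : ‖∑ b ∈ I, ∑ m ∈ Ioc M (2 * M), c m b * g b m‖ ≤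
      ∑ b ∈ I, ∑ m ∈ Ioc M (2 * M), ‖c m b‖ * ‖g b m‖ :=
    (norm_sum_le _ _).trans (sum_le_sum fun b _ => (norm_sum_le _ _).trans
      (sum_le_sum fun m _ => (norm_mul _ _).le))
  have h2 := ydu1_cs I (Ioc M (2 * M)) (fun b m => ‖c m b‖) fun b m => ‖g b m‖
  have h3 : ∑ b ∈ I, ∑ m ∈ Ioc M (2 * M), ‖g b m‖ ^ 2 ≤
      ∑ b ∈ I, ∑ m ∈ Icc 1 (3 * M), wt (m / M) * ‖g b m‖ ^ 2 := by
    refine sum_le_sum fun b _ => ?_
    refine le_trans (le_of_eq (sum_congr rfl fun n hn => ?_))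
      (sum_le_sum_of_subset_of_nonneg (s := Ioc M (2 * M)) (fun n hn => ?_) fun n _ _ =>
        mul_nonneg (wt_nonneg _) (sq_nonneg _))
    · rw [mem_Ioc] at hn
      have a1 : (M : ℝ) ≤ n := by exact_mod_cast hn.1.le
      have a2 : (n : ℝ) ≤ 2 * M := by exact_mod_cast hn.2
      rw [wt_one ((one_le_div M0).2 a1) ((div_le_iff₀ M0).2 a2), one_mul]
    · rw [mem_Ioc] at hn; rw [mem_Icc]; omega
  have h4 : ∑ b ∈ I, ∑ m ∈ Icc 1 (3 * M), wt (m / M) * ‖g b m‖ ^ 2 ≤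
      ‖∑ t ∈ W, ∑ t' ∈ W, β t * conj (β t') *
        (Gs M ((t - t' : ℤ) : ℝ) * ZI I (-((t - t' : ℤ) : ℝ)))‖ := by
    rw [← ydu1_gram, Complex.norm_real]
    simp only [hg]
    exact le_abs_self _
  have h5 : ∀ t t' : ℤ, ‖β t * conj (β t') *
      (Gs M ((t - t' : ℤ) : ℝ) * ZI I (-((t - t' : ℤ) : ℝ)))‖ ≤
      C₀ * M * #I * (1 / (1 + ((t - t' : ℤ) : ℝ) ^ 2)) + ‖ZI I ((t - t' : ℤ) : ℝ)‖ *
        ‖Gs M ((t - t' : ℤ) : ℝ) - Im M ((t - t' : ℤ) : ℝ) 0‖ := by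
    intro t t'
    generalize ((t - t' : ℤ) : ℝ) = s
    rw [norm_mul, norm_mul, norm_mul, Complex.norm_conj, norm_ZI_neg]
    have a1 : ‖β t‖ * ‖β t'‖ ≤ 1 := mul_le_one₀ (hβ t) (norm_nonneg _) (hβ t')
    have a2 : ‖Gs M s‖ ≤ ‖Im M s 0‖ + ‖Gs M s - Im M s 0‖ := by
      have := norm_add_le (Im M s 0) (Gs M s - Im M s 0)
      rwa [add_sub_cancel] at this
    have a3 := H₀ M s
    rw [div_eq_mul_one_div] at a3
    have a4 := mul_le_mul a3 (ydu1_ZI I s) (norm_nonneg _) ((norm_nonneg _).trans a3)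
    have a5 := mul_le_mul_of_nonneg_right a2 (norm_nonneg (ZI I s))
    have a6 := mul_le_of_le_one_left (mul_nonneg (norm_nonneg (Gs M s)) (norm_nonneg (ZI I s))) a1
    linarith only [a4, a5, a6]
  have h6 : ∑ t ∈ W, ∑ t' ∈ W, C₀ * M * #I * (1 / (1 + ((t - t' : ℤ) : ℝ) ^ 2)) ≤
      5 * C₀ * M * #I * #W := by
    have : ∀ t ∈ W, ∑ t' ∈ W, C₀ * M * #I * (1 / (1 + ((t - t' : ℤ) : ℝ) ^ 2)) ≤
        C₀ * M * #I * 5 := fun t _ => by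
      rw [← mul_sum]
      exact mul_le_mul_of_nonneg_left (dua_five W t) (by positivity)
    refine (sum_le_sum this).trans (le_of_eq ?_)
    rw [sum_const, nsmul_eq_mul]
    ring
  have h7 : ∑ t ∈ W, ∑ t' ∈ W, ‖ZI I ((t - t' : ℤ) : ℝ)‖ *
      ‖Gs M ((t - t' : ℤ) : ℝ) - Im M ((t - t' : ℤ) : ℝ) 0‖ ≤ √(DS W I) * √(HS W M) := by
    have D0 : 0 ≤ DS W I := sum_nonneg fun _ _ => sum_nonneg fun _ _ => sq_nonneg _
    rw [← Real.sqrt_mul D0]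
    exact Real.le_sqrt_of_sq_le (ydu1_cs W W (fun t t' => ‖ZI I ((t - t' : ℤ) : ℝ)‖)
      fun t t' => ‖Gs M ((t - t' : ℤ) : ℝ) - Im M ((t - t' : ℤ) : ℝ) 0‖)
  have h8 : ‖∑ t ∈ W, ∑ t' ∈ W, β t * conj (β t') *
      (Gs M ((t - t' : ℤ) : ℝ) * ZI I (-((t - t' : ℤ) : ℝ)))‖ ≤
      5 * C₀ * M * #I * #W + √(DS W I) * √(HS W M) := by
    refine (norm_sum_le _ _).trans ((sum_le_sum fun t _ => (norm_sum_le _ _).trans
      (sum_le_sum fun t' _ => h5 t t')).trans ?_)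
    simp only [sum_add_distrib]
    exact add_le_add h6 h7
  rw [e1]
  refine (pow_le_pow_left₀ (norm_nonneg _) h1 2).trans (h2.trans ?_)
  exact mul_le_mul_of_nonneg_left (h3.trans (h4.trans h8))
    (sum_nonneg fun _ _ => sum_nonneg fun _ _ => sq_nonneg _)

end Pool.Agent.MP_71ac24_nt.ZY
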