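import Pool.Agent.MP_71ac24_nt.ZY.DefsA

namespace Pool.Agent.MP_71ac24_nt.ZY
open Finset Real
open scoped ComplexConjugate
open Pool.Agent.MP_71ac24_nt.H14 (ei ei_add norm_ei ei_zero conj_ei norm_ei_sub)
open Pool.Agent.MP_71ac24_nt.H17 Pool.Agent.MP_71ac24_nt.H17R

-- helper lemmas of this row: prefix ydua_

lemma ydua_fib {α : Type} (P : Finset α) (m b : α → ℕ) (w : α → ℂ) (J I : Finset ℕ) {E : ℝ}
    (hP : ∀ p ∈ P, m p ∈ J ∧ b p ∈ I)
    (hE : ∀ x ∈ J, ∀ z ∈ I, (#{p ∈ P | (b p, m p) = (z, x)} : ℝ) ≤ E) :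
    ∃ c : ℕ → ℕ → ℂ, (∑ z ∈ I, ∑ x ∈ J, ‖c x z‖ ^ 2 ≤ E * ∑ p ∈ P, ‖w p‖ ^ 2) ∧ ∀ g : ℕ → ℕ → ℂ,
      ∑ p ∈ P, w p * g (m p) (b p) = ∑ z ∈ I, ∑ x ∈ J, c x z * g x z := by
  have hm : ∀ p ∈ P, (b p, m p) ∈ I ×ˢ J := fun p hp => mem_product.2 ⟨(hP p hp).2, (hP p hp).1⟩
  refine ⟨fun x z => ∑ p ∈ P with (b p, m p) = (z, x), w p, ?_, fun g => ?_⟩
  · rw [← sum_fiberwise_of_maps_to hm, mul_sum, sum_product]
    refine sum_le_sum fun z hz => sum_le_sum fun x hx => ?_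
    refine (pow_le_pow_left₀ (norm_nonneg _) (norm_sum_le _ _) 2).trans ?_
    exact sq_sum_le_card_mul_sum_sq.trans
      (mul_le_mul_of_nonneg_right (hE x hx z hz) (sum_nonneg fun _ _ => sq_nonneg _))
  · rw [← sum_fiberwise_of_maps_to hm, sum_product]
    refine sum_congr rfl fun z _ => sum_congr rfl fun x _ => ?_
    rw [sum_mul]
    refine sum_congr rfl fun p hp => ?_
    obtain ⟨e1, e2⟩ := Prod.mk.inj (mem_filter.1 hp).2
    rw [e1, e2]

lemma ydua_tb {H : ℕ} {f : ℕ × ℕ} (h : f ∈ tb H) :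
    H < 4 * f.1 ∧ f.1 ≤ H ∧ H < 4 * f.2 ∧ f.2 ≤ H := by
  obtain ⟨h1, h2⟩ := mem_sdiff.1 h
  rw [mem_fr] at h1 h2
  obtain ⟨⟨a1, a2⟩, ⟨b1, b2⟩, c, d, e⟩ := h1
  have : ¬ (f.1 ≤ H / 2 ∧ f.2 ≤ H / 2) := fun x => h2 ⟨⟨a1, x.1⟩, ⟨b1, x.2⟩, c, d, e⟩
  omega

lemma ydua_mul {H N a n : ℕ} (h1 : H < 4 * a) (h2 : a ≤ H) (h3 : N < n) (h4 : n ≤ 2 * N) :
    N * H < 4 * (a * n) ∧ a * n ≤ 2 * (N * H) := by
  constructor <;> nlinarith

theorem ydua_row (hDU1 : DU1_s) (hDSY : DSY_s) (hHSY : HSY_s) : DUA_s := by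
  intro ε hε
  obtain ⟨C0, c0, h0⟩ := hDU1
  obtain ⟨C1, c1, h1⟩ := hDSY (ε / 2) (by linarith)
  obtain ⟨C2, c2, h2⟩ := hHSY (ε / 2) (by linarith)
  obtain ⟨C3, c3, h3⟩ := dsl_tau 1 (show 0 < ε / 2 by linarith)
  refine ⟨64 * (C3 * (2 * C0 + C1 + C2)), by positivity,
    fun Y N T H W a V y y' hN hH hY hT hTY hW hB hy hy' hb hb' => ?_⟩
  obtain ⟨K, hK⟩ : ∃ K, K = N * H := ⟨_, rfl⟩
  have hY' : 4 * K ≤ Y := by rw [hK, ← mul_assoc]; exact hY
  have K4 : 4 * H ≤ K := by rw [hK]; exact Nat.mul_le_mul_right _ hN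
  have Y1 : (1 : ℝ) ≤ Y := by exact_mod_cast (by omega : 1 ≤ Y)
  have eu : (Y : ℝ) ^ ε = (Y : ℝ) ^ (ε / 2) * (Y : ℝ) ^ (ε / 2) := by
    rw [← Real.rpow_add (by linarith), add_halves]
  have u1 : 1 ≤ (Y : ℝ) ^ (ε / 2) := Real.one_le_rpow Y1 (by linarith)
  have S0 : 0 ≤ SF W (tb H) := sum_nonneg fun _ _ => sq_nonneg _
  set P := tb H ×ˢ Ioc N (2 * N) with hP
  set w : (ℕ × ℕ) × ℕ → ℂ := fun p => conj (rho W (lg p.1)) * a p.2 with hw
  have sw : ∑ p ∈ P, ‖w p‖ ^ 2 ≤ N * SF W (tb H) := by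
    rw [hP, sum_product, SF, mul_sum]
    refine sum_le_sum fun f _ => ?_
    refine (sum_le_card_nsmul _ _ (‖rho W (lg f)‖ ^ 2) fun n _ => ?_).trans ?_
    · rw [hw]
      dsimp only
      rw [norm_mul, Complex.norm_conj]
      exact pow_le_pow_left₀ (by positivity) (mul_le_of_le_one_right (norm_nonneg _) (hB.1 n)) 2
    · rw [Nat.card_Ioc, nsmul_eq_mul, show 2 * N - N = N by omega]
  choose β hβ eβ using fun t : ℤ => Complex.exists_norm_eq_mul_self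
    ((∑ f ∈ tb H, conj (rho W (lg f)) * ei (t * lg f)) * DP N a t)
  obtain ⟨G, hG⟩ : ∃ G : ℝ, G = N * H ^ 2 * #W + H * (#W : ℝ) ^ 2 * √(N * y * y') := ⟨_, rfl⟩
  have G0 : 0 ≤ G := by rw [hG]; positivity
  have blk : ∀ (M : ℕ) (I : Finset ℕ) (Q : Finset ((ℕ × ℕ) × ℕ)), K ≤ 8 * M → M ≤ 2 * K →
      (∀ m ∈ I, 1 ≤ m ∧ m ≤ H) → (∀ m ∈ I, ∀ m' ∈ I, m ≤ 2 * m') → Q ⊆ P →
      (∀ p ∈ Q, p.1.1 * p.2 ∈ Ioc M (2 * M) ∧ p.1.2 ∈ I) →
      ‖∑ t ∈ W, β t * ∑ p ∈ Q, w p *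
        ei (t * (Real.log (p.1.1 * p.2 : ℕ) - Real.log p.1.2))‖ ^ 2 ≤
        C3 * (2 * C0 + C1 + C2) * (Y : ℝ) ^ ε * (N * G) * SF W (tb H) := by
    intro M I Q m1 m2 i1 i2 hQ hq
    obtain ⟨c, hc, ec⟩ := ydua_fib Q (fun p => p.1.1 * p.2) (fun p => p.1.2) w (Ioc M (2 * M)) I
      (E := C3 * (Y : ℝ) ^ (ε / 2)) hq fun x hx z _ => by
        have hx := mem_Ioc.1 hx
        refine le_trans ?_ (h3 Y (by omega) x (by omega) (by rw [pow_one]; omega))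
        refine Nat.cast_le.2 (card_le_card_of_injOn (fun p => p.1.1) (fun p hp => ?_)
          fun p hp p' hp' e => ?_)
        · obtain ⟨-, e⟩ := Prod.mk.inj (mem_filter.1 (mem_coe.1 hp)).2
          exact mem_coe.2 (Nat.mem_divisors.2 ⟨⟨p.2, e.symm⟩, by omega⟩)
        · obtain ⟨e1, e2⟩ := Prod.mk.inj (mem_filter.1 (mem_coe.1 hp)).2
          obtain ⟨e3, e4⟩ := Prod.mk.inj (mem_filter.1 (mem_coe.1 hp')).2
          have e : p.1.1 = p'.1.1 := e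
          refine Prod.ext (Prod.ext e (e1.trans e3.symm)) ?_
          rw [← e4, ← e] at e2
          refine Nat.eq_of_mul_eq_mul_left (Nat.pos_of_ne_zero fun z0 => ?_) e2
          rw [← e, z0, zero_mul] at e4
          omega
    rw [sum_congr rfl fun t _ => by
      rw [ec fun x z => ei (t * (Real.log x - Real.log z))]]
    refine (h0 M W I c β (by omega) fun t => (hβ t).le).trans ?_
    have M0 : (0 : ℝ) < M := by exact_mod_cast (by omega : 0 < M)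
    have m1' : (N : ℝ) * H ≤ 8 * M := by exact_mod_cast hK ▸ m1
    have m2' : (M : ℝ) ≤ 2 * (N * H) := by exact_mod_cast hK ▸ m2
    have NH : (0 : ℝ) < N * H := by exact_mod_cast hK ▸ (by omega : 0 < K)
    have d1 := h1 Y H W I y hH (by omega) (by linarith) i1 i2 hb
    have d2 := h2 Y M T W y' (by omega) (by omega) hT hTY hW hy' fun H' a1 a2 => hb' H' a1 (by
      refine a2.trans ?_
      rw [div_le_div_iff₀ M0 NH, eu]
      have T0 : (0 : ℝ) ≤ T := Nat.cast_nonneg _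
      calc 4 * (Y : ℝ) ^ (ε / 2) * T * (N * H) ≤
            4 * ((Y : ℝ) ^ (ε / 2) * (Y : ℝ) ^ (ε / 2)) * T * (8 * M) := by
            gcongr
            exact le_mul_of_one_le_right (by linarith) u1
        _ = _ := by ring)
    have cI : (#I : ℝ) ≤ H := by
      have := card_le_card (show I ⊆ Icc 1 H from fun m hm => mem_Icc.2 (i1 m hm))
      rw [Nat.card_Icc, Nat.add_sub_cancel] at this
      exact_mod_cast this
    have sc := hc.trans (mul_le_mul_of_nonneg_left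
      ((sum_le_sum_of_subset_of_nonneg hQ fun _ _ _ => sq_nonneg _).trans sw) (by positivity))
    rw [eu]
    generalize (Y : ℝ) ^ (ε / 2) = u at *
    have q0 : 0 ≤ N * y * y' := by positivity
    have d3 : √(DS W I) * √(HS W M) ≤ (C1 + C2) * u * (H * (#W : ℝ) ^ 2 * √(N * y * y')) := by
      refine (mul_le_mul (Real.sqrt_le_sqrt d1) (Real.sqrt_le_sqrt d2) (Real.sqrt_nonneg _)
        (Real.sqrt_nonneg _)).trans ?_
      rw [← Real.sqrt_mul (by positivity), Real.sqrt_le_left (by positivity), mul_pow, mul_pow,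
        mul_pow _ (√_), Real.sq_sqrt q0]
      calc C1 * u * (H * y * (#W : ℝ) ^ 2) * (C2 * u * (M * y' * (#W : ℝ) ^ 2))
          ≤ C1 * u * (H * y * (#W : ℝ) ^ 2) * (C2 * u * (2 * (N * H) * y' * (#W : ℝ) ^ 2)) := by
            gcongr
        _ = 2 * C1 * C2 * u ^ 2 * ((H * (#W : ℝ) ^ 2) ^ 2 * (N * y * y')) := by ring
        _ ≤ _ := by
            gcongr
            nlinarith [sq_nonneg C1, sq_nonneg C2]
    have d4 : C0 * M * #I * #W ≤ 2 * C0 * u * (N * H ^ 2 * #W) := by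
      calc C0 * M * #I * #W ≤ C0 * (2 * (N * H)) * H * #W := by gcongr
        _ = 2 * C0 * 1 * (N * H ^ 2 * #W) := by ring
        _ ≤ _ := by gcongr
    have d5 : C0 * M * #I * #W + √(DS W I) * √(HS W M) ≤ (2 * C0 + C1 + C2) * u * G := by
      have p1 : 0 ≤ (C1 + C2) * u * (N * H ^ 2 * #W) := by positivity
      have p2 : 0 ≤ 2 * C0 * u * (H * (#W : ℝ) ^ 2 * √(N * y * y')) := by positivity
      rw [hG]
      linarith
    refine (mul_le_mul sc d5 (by positivity) (by positivity)).trans_eq ?_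
    ring
  let ix : (ℕ × ℕ) × ℕ → ℕ × ℕ := fun p =>
    (if p.1.1 * p.2 ≤ 2 * (K / 4) then 0 else if p.1.1 * p.2 ≤ 4 * (K / 4) then 1 else
      if p.1.1 * p.2 ≤ 8 * (K / 4) then 2 else 3, if 2 * p.1.2 ≤ H then 0 else 1)
  have hix : ∀ p ∈ P, ix p ∈ range 4 ×ˢ range 2 := fun p _ => by
    simp only [ix, mem_product, mem_range]
    constructor <;> split_ifs <;> norm_num
  have all : ∀ k ∈ range 4 ×ˢ range 2, ‖∑ t ∈ W, β t * ∑ p ∈ P with ix p = k, w p *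
      ei (t * (Real.log (p.1.1 * p.2 : ℕ) - Real.log p.1.2))‖ ^ 2 ≤
      C3 * (2 * C0 + C1 + C2) * (Y : ℝ) ^ ε * (N * G) * SF W (tb H) := fun k hk => by
    obtain ⟨k1, k2⟩ := k
    simp only [mem_product, mem_range] at hk
    refine blk (2 ^ k1 * (K / 4)) {z ∈ Icc 1 H | H < 4 * z ∧ (2 * z ≤ H ↔ k2 = 0)} _ ?_ ?_
      (fun m hm => mem_Icc.1 (mem_filter.1 hm).1) (fun m hm m' hm' => ?_) (filter_subset _ _)
      fun p hp => ?_
    · obtain ⟨a1, -⟩ := hk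
      interval_cases k1 <;> omega
    · obtain ⟨a1, -⟩ := hk
      interval_cases k1 <;> omega
    · simp only [mem_filter, mem_Icc] at hm hm'
      omega
    · obtain ⟨hp, e⟩ := mem_filter.1 hp
      obtain ⟨f1, f2⟩ := mem_product.1 hp
      obtain ⟨t1, t2, t3, t4⟩ := ydua_tb f1
      rw [mem_Ioc] at f2
      obtain ⟨l1, l2⟩ := ydua_mul t1 t2 f2.1 f2.2
      rw [← hK] at l1 l2
      obtain ⟨e1, e2⟩ := Prod.mk.inj e
      simp only [mem_filter, mem_Icc, mem_Ioc]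
      generalize p.1.1 * p.2 = x at *
      refine ⟨?_, ⟨by omega, t4⟩, t3, ?_⟩
      · split_ifs at e1 <;> subst e1 <;> omega
      · split_ifs at e2 <;> subst e2 <;> omega
  have dec : ∀ t : ℤ, (∑ f ∈ tb H, conj (rho W (lg f)) * ei (t * lg f)) * DP N a t =
      ∑ k ∈ range 4 ×ˢ range 2, ∑ p ∈ P with ix p = k, w p *
        ei (t * (Real.log (p.1.1 * p.2 : ℕ) - Real.log p.1.2)) := fun t => by
    rw [sum_fiberwise_of_maps_to hix, DP, sum_mul_sum, hP, sum_product]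
    refine sum_congr rfl fun f hf => sum_congr rfl fun n hn => ?_
    obtain ⟨t1, -, -, -⟩ := ydua_tb hf
    have n0 : (n : ℝ) ≠ 0 := by exact_mod_cast (by have := (mem_Ioc.1 hn).1; omega : n ≠ 0)
    have f0 : (f.1 : ℝ) ≠ 0 := by exact_mod_cast (by omega : f.1 ≠ 0)
    rw [hw]
    dsimp only
    rw [mul_mul_mul_comm, ← ei_add, Nat.cast_mul, Real.log_mul f0 n0, lg]
    congr 2
    ring
  have low : SF W (tb H) * V ≤ ∑ k ∈ range 4 ×ˢ range 2, ‖∑ t ∈ W, β t *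
      ∑ p ∈ P with ix p = k, w p * ei (t * (Real.log (p.1.1 * p.2 : ℕ) - Real.log p.1.2))‖ := by
    refine le_trans ?_ (norm_sum_le _ _)
    rw [sum_comm, sum_congr rfl fun t _ => by rw [← mul_sum, ← dec, ← eβ], ← Complex.ofReal_sum,
      Complex.norm_real]
    refine le_trans ?_ (le_abs_self _)
    refine (mul_le_mul_of_nonneg_right (lam_dual W (tb H)) hB.2.1).trans ?_
    rw [sum_mul]
    refine sum_le_sum fun t ht => ?_
    rw [norm_mul]
    exact mul_le_mul_of_nonneg_left (hB.2.2 t ht) (norm_nonneg _)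
  have sq := (pow_le_pow_left₀ (mul_nonneg S0 hB.2.1) low 2).trans (sq_sum_le_card_mul_sum_sq.trans
    (mul_le_mul_of_nonneg_left (sum_le_card_nsmul _ _ _ all) (Nat.cast_nonneg _)))
  rw [card_product, card_range, card_range, nsmul_eq_mul] at sq
  rw [← hG]
  rcases S0.eq_or_lt with s | s
  · rw [← s, zero_mul]
    positivity
  · refine le_of_mul_le_mul_right ?_ s
    push_cast at sq
    linarith

end Pool.Agent.MP_71ac24_nt.ZY
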