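import Pool.Agent.MP_71ac24_nt.ZY.DefsB

namespace Pool.Agent.MP_71ac24_nt.ZY
open Finset Real Filter
open Pool.Agent.MP_71ac24_nt.H14 (ei ei_add norm_ei ei_zero conj_ei norm_ei_sub)
open Pool.Agent.MP_71ac24_nt Pool.Agent.MP_a404e6_nt.W
open Pool.Agent.MP_71ac24_nt.ZD (AA AB AD LVG LVA_s)

-- helper lemmas of this row: prefix yfin_

theorem yfin_mix {A B C : ℝ → ℝ} (hA : LVG A) (hB : LVG B)
    (h : ∀ σ : ℝ, 1 / 2 ≤ σ → σ ≤ 1 → A σ ≤ C σ ∨ B σ ≤ C σ) : LVG C := by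
  intro κ ε hκ hε hε1
  obtain ⟨e1, a1, a2, a3⟩ := hA κ ε hκ hε hε1
  obtain ⟨e2, b1, -, b3⟩ := hB κ ε hκ hε hε1
  refine ⟨min e1 e2, lt_min a1 b1, min_le_of_left_le a2, ?_⟩
  filter_upwards [a3, b3, eventually_ge_atTop (0 : ℝ)] with L g1 g2 hL f y σ c1 c2 c3 c4 c5 c6
  have m1 := mul_le_mul_of_nonneg_right (min_le_left e1 e2) hL
  have m2 := mul_le_mul_of_nonneg_right (min_le_right e1 e2) hL
  have s0 : 0 ≤ 1 - σ := by linarith
  rcases h σ c5 c6 with g | g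
  · refine (ZD.cnt_anti _ _ (exp_le_exp.2 (by linarith))).trans
      ((g1 f y σ c1 c2 c3 c4 c5 c6).trans ?_)
    gcongr
  · refine (ZD.cnt_anti _ _ (exp_le_exp.2 (by linarith))).trans
      ((g2 f y σ c1 c2 c3 c4 c5 c6).trans ?_)
    gcongr

theorem yfin_row (hLVA : LVA_s) (hLVC : LVC_s) : FIN_s := by
  refine ⟨fun σ h1 h2 => ?_, yfin_mix hLVC (ZD.lvb_row hLVA) fun σ _ _ => ?_⟩
  · unfold AE
    split_ifs
    exacts [ZD.AA_ge h1 h2, le_max_left _ _]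
  · unfold AE AB AC AD
    split_ifs
    · exact .inl le_rfl
    · rcases le_total (3 / (11 * σ - 7)) (max (9 / (7 * σ - 1)) (17 / (59 * σ - 37))) with g | g
      · exact .inl (by rw [min_eq_left g])
      · exact .inr (by rw [min_eq_right g]; exact max_le_max le_rfl (min_le_right _ _))

end Pool.Agent.MP_71ac24_nt.ZY
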