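import Pool.Agent.MP_71ac24_nt.ZY.DefsA

namespace Pool.Agent.MP_71ac24_nt.ZY
open Finset Real
open scoped ComplexConjugate
open Pool.Agent.MP_71ac24_nt.H14 (ei ei_add norm_ei ei_zero conj_ei norm_ei_sub)
open Pool.Agent.MP_71ac24_nt.H17 Pool.Agent.MP_71ac24_nt.H17R

-- helper lemmas of this row: prefix ygcd_

theorem ygcd_tb {H : ℕ} {f : ℕ × ℕ} (h : f ∈ tb H) : (1 ≤ f.1 ∧ f.1 ≤ H) ∧ (1 ≤ f.2 ∧ f.2 ≤ H) ∧
    Nat.Coprime f.1 f.2 ∧ H < 4 * f.1 ∧ H < 4 * f.2 := by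
  obtain ⟨h1, h2⟩ := mem_sdiff.1 h
  obtain ⟨a, b, c, d, e⟩ := mem_fr.1 h1
  have : ¬ (f.1 ≤ H / 2 ∧ f.2 ≤ H / 2) := fun g =>
    h2 (mem_fr.2 ⟨⟨a.1, g.1⟩, ⟨b.1, g.2⟩, c, d, e⟩)
  exact ⟨a, b, c, by omega, by omega⟩

theorem ygcd_sum {a : ℕ} (ha : a ≠ 0) (H : ℕ) :
    ∑ x ∈ Icc 1 H, Nat.gcd a x ≤ H * #a.divisors := by
  calc _ ≤ ∑ x ∈ Icc 1 H, ∑ d ∈ a.divisors with d ∣ x, d := sum_le_sum fun x _ =>
        single_le_sum (f := fun d => d) (fun _ _ => Nat.zero_le _)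
          (mem_filter.2 ⟨Nat.mem_divisors.2 ⟨Nat.gcd_dvd_left _ _, ha⟩, Nat.gcd_dvd_right _ _⟩)
    _ = ∑ d ∈ a.divisors, #{x ∈ Icc 1 H | d ∣ x} * d := by
        simp only [sum_filter]
        rw [sum_comm]
        refine sum_congr rfl fun d _ => ?_
        rw [← sum_filter, sum_const, smul_eq_mul]
    _ ≤ ∑ _d ∈ a.divisors, H := sum_le_sum fun d _ => by
        rw [show Icc 1 H = Ioc 0 H from rfl, Nat.Ioc_filter_dvd_card_eq_div]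
        exact Nat.div_mul_le_self _ _
    _ = _ := by rw [sum_const, smul_eq_mul, mul_comm]

theorem ygcd_one (N : ℕ) {u v : ℕ} (hu : 0 < u) (hv : 0 < v) :
    #{q ∈ Ioc N (2 * N) ×ˢ Ioc N (2 * N) | u * q.1 = v * q.2} * v ≤ 2 * N * Nat.gcd u v := by
  obtain ⟨g, u', v', g0, hc, rfl, rfl⟩ := Nat.exists_coprime' (Nat.gcd_pos_of_pos_left v hu)
  have v0 : 0 < v' := Nat.pos_of_mul_pos_right hv
  have h1 : #{q ∈ Ioc N (2 * N) ×ˢ Ioc N (2 * N) | u' * g * q.1 = v' * g * q.2} ≤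
      #{x ∈ Ioc 0 (2 * N) | v' ∣ x} := by
    refine card_le_card_of_injOn Prod.fst (fun q hq => ?_) fun q hq q' hq' e => ?_
    · simp only [coe_filter, mem_product, mem_Ioc, Set.mem_ofPred_eq] at hq ⊢
      refine ⟨⟨by omega, hq.1.1.2⟩, hc.symm.dvd_of_dvd_mul_left ⟨q.2, ?_⟩⟩
      exact Nat.eq_of_mul_eq_mul_left g0 (by linarith [hq.2])
    · have a := (mem_filter.1 (mem_coe.1 hq)).2
      have b := (mem_filter.1 (mem_coe.1 hq')).2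
      refine Prod.ext e (Nat.eq_of_mul_eq_mul_left hv ?_)
      rw [← a, ← b, e]
  rw [Nat.Ioc_filter_dvd_card_eq_div] at h1
  rw [Nat.gcd_mul_right, hc, one_mul, ← mul_assoc]
  exact Nat.mul_le_mul_right _ ((Nat.mul_le_mul_right _ h1).trans (Nat.div_mul_le_self _ _))

theorem ygcd_row : GCD_s := by
  intro N H f hf
  obtain ⟨a1, b1, c1, a2, b2⟩ := ygcd_tb hf
  have H0 : 0 < H := by omega
  have key : ∀ f' ∈ tb H, #{q ∈ Ioc N (2 * N) ×ˢ Ioc N (2 * N) |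
      f.1 * q.1 * f'.2 = f'.1 * q.2 * f.2} * H ^ 2 ≤
        32 * N * (Nat.gcd f.1 f'.1 * Nat.gcd f.2 f'.2) := fun f' hf' => by
    obtain ⟨a1', b1', c1', a2', b2'⟩ := ygcd_tb hf'
    have h := ygcd_one N (u := f.1 * f'.2) (v := f'.1 * f.2) (Nat.mul_pos a1.1 b1'.1)
      (Nat.mul_pos a1'.1 b1.1)
    have g : Nat.gcd (f.1 * f'.2) (f'.1 * f.2) ≤ Nat.gcd f.1 f'.1 * Nat.gcd f.2 f'.2 := by
      refine Nat.le_of_dvd (Nat.mul_pos (Nat.gcd_pos_of_pos_left _ a1.1)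
        (Nat.gcd_pos_of_pos_left _ b1.1)) ?_
      rw [Nat.gcd_comm]
      refine (Nat.gcd_mul_right_dvd_mul_gcd _ _ _).trans ?_
      rw [c1.symm.gcd_mul_right_cancel f'.1, c1'.gcd_mul_left_cancel f.2, Nat.gcd_comm f'.1]
    have e : ({q ∈ Ioc N (2 * N) ×ˢ Ioc N (2 * N) | f.1 * q.1 * f'.2 = f'.1 * q.2 * f.2} :
        Finset (ℕ × ℕ)) = {q ∈ Ioc N (2 * N) ×ˢ Ioc N (2 * N) |
          f.1 * f'.2 * q.1 = f'.1 * f.2 * q.2} :=
      filter_congr fun q _ => by rw [mul_right_comm f.1, mul_right_comm f'.1]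
    rw [e]
    generalize #{q ∈ Ioc N (2 * N) ×ˢ Ioc N (2 * N) | f.1 * f'.2 * q.1 = f'.1 * f.2 * q.2} = X at h
    calc X * H ^ 2 ≤ X * (4 * f'.1 * (4 * f.2)) :=
          Nat.mul_le_mul_left _ (by rw [sq]; exact Nat.mul_le_mul a2'.le b2.le)
      _ = 16 * (X * (f'.1 * f.2)) := by ring
      _ ≤ 16 * (2 * N * (Nat.gcd f.1 f'.1 * Nat.gcd f.2 f'.2)) :=
          Nat.mul_le_mul_left _ (h.trans (Nat.mul_le_mul_left _ g))
      _ = _ := by ring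
  refine Nat.le_of_mul_le_mul_right ?_ (pow_pos H0 2)
  rw [card_filter, sum_product, sum_mul]
  calc _ ≤ ∑ f' ∈ tb H, 32 * N * (Nat.gcd f.1 f'.1 * Nat.gcd f.2 f'.2) :=
        sum_le_sum fun f' hf' => by rw [← card_filter]; exact key f' hf'
    _ ≤ ∑ f' ∈ Icc 1 H ×ˢ Icc 1 H, 32 * N * (Nat.gcd f.1 f'.1 * Nat.gcd f.2 f'.2) :=
        sum_le_sum_of_subset (sdiff_subset.trans (filter_subset _ _))
    _ = 32 * N * ((∑ x ∈ Icc 1 H, Nat.gcd f.1 x) * ∑ x ∈ Icc 1 H, Nat.gcd f.2 x) := by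
        rw [← mul_sum, sum_mul_sum, sum_product]
    _ ≤ 32 * N * (H * #f.1.divisors * (H * #f.2.divisors)) :=
        Nat.mul_le_mul_left _ (Nat.mul_le_mul (ygcd_sum (by omega) H) (ygcd_sum (by omega) H))
    _ = _ := by ring

end Pool.Agent.MP_71ac24_nt.ZY
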