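import Pool.Agent.MP_71ac24_nt.ZY.DefsA

namespace Pool.Agent.MP_71ac24_nt.ZY
open Finset Real
open scoped ComplexConjugate
open Pool.Agent.MP_71ac24_nt.H14 (ei ei_add norm_ei ei_zero conj_ei norm_ei_sub)
open Pool.Agent.MP_71ac24_nt.H17 Pool.Agent.MP_71ac24_nt.H17R

-- helper lemmas of this row: prefix yhsy_

theorem yhsy_row (hDSY : DSY_s) : HSY_s := by
  intro ε hε
  obtain ⟨η, η0, η1, ηε⟩ : ∃ η : ℝ, 0 < η ∧ η ≤ 1 ∧ η * (5 : ℕ) ≤ ε := by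
    refine ⟨min (ε / 5) 1, lt_min (by positivity) one_pos, min_le_right _ _, ?_⟩
    have := min_le_left (ε / 5) 1
    push_cast; linarith only [this]
  obtain ⟨A, A2, hA⟩ : ∃ A : ℕ, 2 ≤ A ∧ 2 ≤ η * A := by
    refine ⟨⌈2 / η⌉₊ + 2, by omega, ?_⟩
    have h := Nat.le_ceil (2 / η)
    rw [div_le_iff₀ η0] at h
    push_cast
    linarith only [η0, h]
  obtain ⟨C₁, hC₁, H₁⟩ := poisson A A2
  obtain ⟨C₂, hC₂, H₂⟩ := refl
  obtain ⟨C₃, hC₃, H₃⟩ := hDSY η η0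
  obtain ⟨C₄, hC₄, H₄⟩ := tp2_log 2 η η0
  refine ⟨32 * C₁ ^ 2 + 512 * C₂ * C₃ * C₄, by positivity,
    fun Y N T W y hN hNY hT hTY hW y1 hB => ?_⟩
  have N1 : (1 : ℝ) ≤ N := by exact_mod_cast hN
  have NT : (N : ℝ) ≤ Y := by exact_mod_cast hNY
  have T1 : (1 : ℝ) ≤ T := by exact_mod_cast hT
  have TY : (T : ℝ) ≤ Y := by exact_mod_cast hTY
  have Y1 : (1 : ℝ) ≤ Y := by linarith only [N1, NT, TY]
  have N0 : (0 : ℝ) < N := by linarith only [N1]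
  have T0 : (0 : ℝ) ≤ T := by linarith only [T1]
  have R0 : (0 : ℝ) ≤ #W := Nat.cast_nonneg _
  have u1 : 1 ≤ (Y : ℝ) ^ η := one_le_rpow Y1 η0.le
  have u2 : (Y : ℝ) ^ η ≤ Y := by simpa using rpow_le_rpow_of_exponent_le Y1 η1
  have u3 : ((Y : ℝ) ^ η) ^ 5 ≤ (Y : ℝ) ^ ε := by
    rw [← rpow_mul_natCast (by linarith only [N1, NT, TY])]
    exact rpow_le_rpow_of_exponent_le Y1 ηε
  have u4 : (Y : ℝ) ^ 2 ≤ ((Y : ℝ) ^ η) ^ A := by
    rw [← rpow_mul_natCast (by linarith only [N1, NT, TY]), ← rpow_natCast]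
    exact rpow_le_rpow_of_exponent_le Y1 (by simpa only [Nat.cast_ofNat] using hA)
  have u5 : ((4 * Y ^ 2 : ℕ) : ℝ) ^ η ≤ 4 * ((Y : ℝ) ^ η) ^ 2 := by
    push_cast
    rw [mul_rpow (by norm_num) (by positivity), ← rpow_natCast_mul (by linarith only [N1, NT, TY]), mul_comm _ η,
      rpow_mul_natCast (by linarith only [N1, NT, TY])]
    have : (4 : ℝ) ^ η ≤ 4 := by
      simpa using rpow_le_rpow_of_exponent_le (show (1 : ℝ) ≤ 4 by norm_num) η1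
    gcongr
  generalize (Y : ℝ) ^ η = u at u1 u2 u3 u4 u5
  have u0 : 0 < u := by linarith only [u1]
  have ex : ∃ J : ℕ, u * (1 + T) ≤ 2 ^ J * N := by
    obtain ⟨J, hJ⟩ := pow_unbounded_of_one_lt (u * (1 + T)) (one_lt_two (α := ℝ))
    exact ⟨J, hJ.le.trans (le_mul_of_one_le_right (by positivity) N1)⟩
  obtain ⟨J, hJ, hmin⟩ : ∃ J : ℕ, u * (1 + T) ≤ 2 ^ J * N ∧ ∀ i < J, 2 ^ i * (N : ℝ) ≤ 2 * u * T := by
    classical
    refine ⟨Nat.find ex, Nat.find_spec ex, fun i hi => ?_⟩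
    have := not_le.1 (Nat.find_min ex hi)
    nlinarith only [T1, u1, this]
  have uT : u * T ≤ Y ^ 2 := by rw [sq]; gcongr
  have hM : 2 ^ J * (N : ℝ) ≤ 4 * Y ^ 2 := by
    rcases J with _ | J
    · rw [pow_zero]; nlinarith only [NT, Y1]
    · have := hmin J (by omega)
      rw [pow_succ]; linarith only [uT, this]
  have hM' : ∀ i ≤ J, 2 ^ i ≤ 4 * Y ^ 2 := fun i hi => by
    have a1 : (2 : ℝ) ^ i ≤ 2 ^ J := pow_le_pow_right₀ one_le_two hi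
    have a2 : (2 : ℝ) ^ J ≤ 2 ^ J * N := le_mul_of_one_le_right (by positivity) N1
    exact_mod_cast (a1.trans a2).trans hM
  have hY : Y ≤ 4 * Y ^ 2 := by nlinarith only []
  have hJ2 : (J : ℝ) ^ 2 ≤ C₄ * (4 * u ^ 2) := by
    have a1 : J ≤ Nat.log 2 (4 * Y ^ 2) := Nat.le_log_of_pow_le one_lt_two (hM' J le_rfl)
    have a2 : (J : ℝ) ≤ Nat.log 2 (4 * Y ^ 2) + 1 := by exact_mod_cast a1.trans (Nat.le_succ _)
    exact ((pow_le_pow_left₀ (Nat.cast_nonneg J) a2 2).trans (H₄ _ (by omega))).trans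
      (mul_le_mul_of_nonneg_left u5 hC₄.le)
  have y0 : 0 ≤ y := by linarith only [y1]
  have uε : u ≤ (Y : ℝ) ^ ε := (le_self_pow₀ u1 (by norm_num)).trans u3
  have B2 : ∀ i < J, YB W (2 * 2 ^ i : ℕ) y := fun i hi H H1 H2 => by
    refine hB H H1 (H2.trans ?_)
    rw [le_div_iff₀ N0]
    have a1 := hmin i hi
    have a2 := mul_le_mul_of_nonneg_right uε T0
    push_cast
    linarith only [a1, a2]
  obtain ⟨B, hBe⟩ : ∃ B : ℝ, B = y * (#W : ℝ) ^ 2 := ⟨_, rfl⟩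
  have B0 : 0 ≤ B := by rw [hBe]; positivity
  have B1 : (#W : ℝ) ^ 2 ≤ B := hBe ▸ le_mul_of_one_le_left (by positivity) y1
  rw [mul_assoc (N : ℝ) y, ← hBe, HS]
  have pt : ∀ t ∈ W, ∀ t' ∈ W, ‖Gs N ((t - t' : ℤ) : ℝ) - Im N ((t - t' : ℤ) : ℝ) 0‖ ^ 2 ≤
      2 * (4 * C₁) ^ 2 + 8 * J * ∑ j ∈ range J, C₂ * N / (2 ^ j : ℕ) *
        (‖ZI (Ico (2 ^ j) (2 * 2 ^ j)) ((t - t' : ℤ) : ℝ)‖ ^ 2 + 1 / (2 ^ j : ℕ) *
          ∑ x ∈ Ico (2 ^ j) (2 * 2 ^ j), ‖ZI (Ico (2 ^ j) (x + 1)) ((t - t' : ℤ) : ℝ)‖ ^ 2) := by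
    intro t ht t' ht'
    have hs : |((t - t' : ℤ) : ℝ)| ≤ T := by
      have := hW t ht
      have := hW t' ht'
      have : |t - t'| ≤ (T : ℤ) := abs_le.2 ⟨by omega, by omega⟩
      exact_mod_cast this
    generalize ((t - t' : ℤ) : ℝ) = s at hs
    have h1 := H₁ N (2 ^ J) s hN Nat.one_le_two_pow
    push_cast at h1
    rw [← add_sum_erase _ _ (show (0 : ℤ) ∈ Ioo (-2 ^ J) (2 ^ J) by simp only [mem_Ioo, Int.neg_neg_iff_pos, Order.lt_two_iff, zero_le_one, pow_pos, and_self]), red_dy] at h1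
    refine hs_cs (h1.trans ?_) (fun j => (H₂ N _ s hN Nat.one_le_two_pow).1)
      fun j => (H₂ N _ s hN Nat.one_le_two_pow).2
    have h4 : (1 + |s|) / (2 ^ J * N) ≤ 1 / u := by
      rw [div_le_div_iff₀ (by positivity) u0]
      nlinarith only [u1, hJ, hs]
    calc _ = C₁ * (2 ^ J * N) * ((1 + |s|) / (2 ^ J * N)) ^ A := by ring
      _ ≤ C₁ * (4 * Y ^ 2) * (1 / u) ^ A := by gcongr
      _ = 4 * C₁ * (Y ^ 2 / u ^ A) := by rw [div_pow]; ring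
      _ ≤ 4 * C₁ * 1 := by
        gcongr
        exact (div_le_one (by positivity)).2 u4
      _ = _ := mul_one _
  refine (sum_le_sum fun t ht => sum_le_sum fun t' ht' => pt t ht t' ht').trans ?_
  simp only [sum_add_distrib, sum_const, nsmul_eq_mul, ← mul_sum]
  rw [sum_congr rfl fun t _ => sum_comm, sum_comm]
  have h5 := sum_le_card_nsmul (range J) _ (16 * C₂ * C₃ * u ^ 3 * (N * B)) fun j hj =>
    (hs_sum W (P := 2 ^ j) (c := C₂ * N / (2 ^ j : ℕ))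
      (D := C₃ * (4 * u ^ 2) * ((2 ^ j : ℕ) * (2 * u * B))) Nat.one_le_two_pow (by positivity)
      fun I hI => (H₃ (4 * Y ^ 2) (2 * 2 ^ j) W I y (by have := @Nat.one_le_two_pow j; omega)
        (by have := hM' (j + 1) (mem_range.1 hj); rwa [pow_succ, mul_comm] at this) y0
        (fun m hm => ⟨Nat.one_le_two_pow.trans (hI m hm).1, (hI m hm).2⟩)
        (fun m hm m' hm' => by have := hI m hm; have := hI m' hm'; omega)
        (B2 j (mem_range.1 hj))).trans (by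
          rw [mul_assoc (((2 * 2 ^ j : ℕ) : ℝ)) y, ← hBe]
          refine mul_le_mul (mul_le_mul_of_nonneg_left u5 hC₃.le) ?_ (by positivity)
            (by positivity)
          have := mul_le_mul_of_nonneg_right u1 (show 0 ≤ 2 * 2 ^ j * B by positivity)
          push_cast
          linarith only [this])).trans (le_of_eq (by field_simp; ring))
  rw [card_range, nsmul_eq_mul] at h5
  have h6 := mul_le_mul_of_nonneg_left h5 (show (0 : ℝ) ≤ 8 * J by positivity)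
  have Z0 : 0 ≤ (N : ℝ) * B := by positivity
  have h7 : (#W : ℝ) ^ 2 ≤ (Y : ℝ) ^ ε * (N * B) :=
    (B1.trans (le_mul_of_one_le_left B0 N1)).trans
      (le_mul_of_one_le_left Z0 ((one_le_pow₀ u1).trans u3))
  have h8 : (J : ℝ) ^ 2 * (128 * C₂ * C₃ * u ^ 3 * (N * B)) ≤
      C₄ * (4 * u ^ 2) * (128 * C₂ * C₃ * u ^ 3 * (N * B)) :=
    mul_le_mul_of_nonneg_right hJ2 (by positivity)
  have h9 : 512 * C₂ * C₃ * C₄ * (N * B) * u ^ 5 ≤ 512 * C₂ * C₃ * C₄ * (N * B) * (Y : ℝ) ^ ε :=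
    mul_le_mul_of_nonneg_left u3 (by positivity)
  have h10 := mul_le_mul_of_nonneg_left h7 (show 0 ≤ 32 * C₁ ^ 2 by positivity)
  linarith only [h6, h8, h9, h10]

end Pool.Agent.MP_71ac24_nt.ZY
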