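import Pool.Agent.MP_71ac24_nt.ZY.DefsB

namespace Pool.Agent.MP_71ac24_nt.ZY
open Finset Real Filter
open Pool.Agent.MP_71ac24_nt.H14 (ei ei_add norm_ei ei_zero conj_ei norm_ei_sub)
open Pool.Agent.MP_71ac24_nt Pool.Agent.MP_a404e6_nt.W
open Pool.Agent.MP_71ac24_nt.ZD (AA AB AD LVG LVA_s)

lemma ylog_split {g : AF} {a0 n : ℝ} {J : ℕ} (h3 : 3 ≤ a0) (hs : Sp g a0 n)
    (hJ : n ≤ J * Real.log 2) (s : ℝ) :
    Dp g s = ∑ j ∈ range J, H17.DP (2 ^ j) (fun m => (g m : ℂ)) s := by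
  have z : ∀ m, 2 ^ J < m → g m = 0 := fun m hm => by
    by_contra h
    have h1 := (hs m h).2
    have h2 : Real.log ((2 : ℝ) ^ J) < Real.log m :=
      Real.log_lt_log (by positivity) (by exact_mod_cast hm)
    rw [Real.log_pow] at h2
    linarith only [h1, h2, hJ]
  have o : g 1 = 0 := by
    by_contra h
    have h1 := (hs 1 h).1
    rw [Nat.cast_one, Real.log_one] at h1
    linarith only [h1, h3]
  rw [Dp_eq z, H17.tp2_split fun m => (g m : ℂ) * ei (s * Real.log m), o, Complex.ofReal_zero,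
    zero_mul, zero_add]
  rfl

lemma ylog_pig {g : AF} {a0 n B V : ℝ} {J T : ℕ} (h3 : 3 ≤ a0) (hs : Sp g a0 n)
    (hJ : n ≤ J * Real.log 2) (J1 : 1 ≤ J) (B0 : 0 < B) (hB : Bd g B) (V0 : 0 < V)
    (hc : 0 < cnt T (fun s => ‖Dp g s‖) V) : ∃ (N : ℕ) (W : Finset ℤ) (b : ℕ → ℂ), 4 ≤ N ∧
      (N : ℝ) ≤ exp n ∧ In W (2 * T + 1) ∧ cnt T (fun s => ‖Dp g s‖) V ≤ J * #W ∧
      Big W N b (B⁻¹ * (V / J)) := by
  have j0 : (0 : ℝ) < J := by exact_mod_cast J1
  have ne : (range J).Nonempty := nonempty_range_iff.2 (by omega)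
  set S : ℕ → Finset ℤ := fun j => {s ∈ Icc (-(T : ℤ)) T |
    V / J ≤ ‖H17.DP (2 ^ j) (fun m => (g m : ℂ)) s‖} with hS
  have sub : (Icc (-(T : ℤ)) T).filter (fun s : ℤ => V ≤ ‖Dp g s‖) ⊆ (range J).biUnion S := by
    intro s h
    obtain ⟨h1, h2⟩ := mem_filter.1 h
    rw [ylog_split h3 hs hJ] at h2
    obtain ⟨j, hj, e⟩ := exists_le_of_sum_le ne (f := fun _ => V / J)
      (g := fun j => ‖H17.DP (2 ^ j) (fun m => (g m : ℂ)) s‖) (by
        rw [sum_const, card_range, nsmul_eq_mul, mul_div_cancel₀ _ j0.ne']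
        exact h2.trans (norm_sum_le _ _))
    exact mem_biUnion.2 ⟨j, hj, mem_filter.2 ⟨h1, e⟩⟩
  obtain ⟨j, -, hj⟩ := exists_max_image (range J) (fun j => #(S j)) ne
  have c1 : cnt T (fun s => ‖Dp g s‖) V ≤ J * #(S j) := by
    have h1 := (card_le_card sub).trans (card_biUnion_le_card_mul _ _ _ hj)
    rw [card_range] at h1
    unfold cnt
    exact_mod_cast h1
  obtain ⟨s0, h0⟩ : (S j).Nonempty := by
    have h1 : (0 : ℝ) < #(S j) := (mul_pos_iff_of_pos_left j0).1 (hc.trans_le c1)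
    exact card_pos.1 (by exact_mod_cast h1)
  obtain ⟨m, hm, gm⟩ : ∃ m ∈ Ioc (2 ^ j) (2 * 2 ^ j), g m ≠ 0 := by
    by_contra h
    push Not at h
    have h1 := (div_pos V0 j0).trans_le (mem_filter.1 h0).2
    rw [H17.DP, sum_eq_zero fun m hm => by rw [h m hm, Complex.ofReal_zero, zero_mul],
      norm_zero] at h1
    exact lt_irrefl _ h1
  obtain ⟨m1, m2⟩ := mem_Ioc.1 hm
  have m0 : (0 : ℝ) < m := by exact_mod_cast (Nat.zero_le _).trans_lt m1
  have m3 : 8 ≤ m := by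
    have h1 := (le_log_iff_exp_le m0).1 (h3.trans (hs m gm).1)
    have h2 : exp 3 = exp 1 ^ 3 := by rw [← exp_nat_mul]; norm_num
    have h4 := pow_le_pow_left₀ (by norm_num) (add_one_le_exp (1 : ℝ)) 3
    have h5 : (8 : ℝ) ≤ m := by linarith only [h1, h2, h4]
    exact_mod_cast h5
  have inj : Function.Injective fun s : ℤ => s + T := fun s t h => by simpa using h
  refine ⟨2 ^ j, (S j).image fun s => s + T,
    fun m => (B⁻¹ * g m : ℝ) * ei (-T * Real.log m), by omega, ?_, fun t ht => ?_, ?_,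
    fun m => ?_, by positivity, fun t ht => ?_⟩
  · exact le_trans (by exact_mod_cast m1.le) ((log_le_iff_le_exp m0).1 (hs m gm).2)
  · obtain ⟨s, h, rfl⟩ := mem_image.1 ht
    have h1 := mem_Icc.1 (mem_filter.1 h).1
    push_cast
    omega
  · rwa [card_image_of_injective _ inj]
  · rw [norm_mul, norm_ei, mul_one, Complex.norm_real, norm_mul, norm_of_nonneg (inv_pos.2 B0).le,
      inv_mul_le_one₀ B0]
    exact hB m
  · obtain ⟨s, h, rfl⟩ := mem_image.1 ht
    refine (mul_le_mul_of_nonneg_left (mem_filter.1 h).2 (inv_pos.2 B0).le).trans_eq ?_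
    have e : ∀ z : ℂ, B⁻¹ * ‖z‖ = ‖(B⁻¹ : ℝ) * z‖ := fun z => by
      rw [norm_mul, Complex.norm_real, norm_of_nonneg (inv_pos.2 B0).le]
    rw [e, H17.DP, H17.DP, mul_sum]
    refine congrArg _ (sum_congr rfl fun m _ => ?_)
    rw [mul_assoc, ← ei_add, Complex.ofReal_mul, mul_assoc, ← add_mul, Int.cast_add,
      Int.cast_natCast, neg_add_cancel_comm_assoc]

lemma ylog_one {E N T R V e n t r a : ℝ} (i j k l : ℕ) (N0 : 0 ≤ N) (T0 : 0 ≤ T) (hE : E ≤ exp e)
    (hN : N ≤ exp n) (hT : T ≤ exp t) (hR : exp r ≤ R) (hV : exp a ≤ V)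
    (h : R ^ i * V ^ j ≤ E * T ^ k * N ^ l) : i * r + j * a ≤ e + k * t + l * n := by
  have R0 := (exp_pos r).le.trans hR
  rw [← exp_le_exp, exp_add, exp_add, exp_add, exp_nat_mul, exp_nat_mul, exp_nat_mul, exp_nat_mul]
  refine le_trans ?_ (h.trans ?_) <;> gcongr

lemma ylog_alt {E N T R V e n t r a : ℝ} (N0 : 0 ≤ N) (T0 : 0 ≤ T) (hE : E ≤ exp e)
    (hN : N ≤ exp n) (hT : T ≤ exp t) (hR : exp r ≤ R) (hV : exp a ≤ V) (h : Alt E N T R V) :
    SQ e t n r a := by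
  have k := fun i j k l => ylog_one i j k l N0 T0 hE hN hT hR hV
  rcases h with h | h | h | h | h
  · have := k 0 4 0 3 (by rwa [pow_zero, pow_zero, one_mul, mul_one])
    push_cast at this
    exact .inl (by linarith only [this])
  · have := k 1 4 0 4 (by rwa [pow_zero, pow_one, mul_one])
    push_cast at this
    exact .inr (.inl (by linarith only [this]))
  · have := k 1 10 1 6 (by rwa [pow_one, pow_one])
    push_cast at this
    exact .inr (.inr (.inl (by linarith only [this])))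
  · have := k 3 44 2 32 h
    push_cast at this
    exact .inr (.inr (.inr (.inl this)))
  · have := k 5 96 3 72 h
    push_cast at this
    exact .inr (.inr (.inr (.inr this)))

theorem ylog_row (hCORE : CORE_s) : LOG_s := by
  intro ε hε
  obtain ⟨C, C0, hC⟩ := hCORE (ε / 20) (by positivity)
  have δ0 : 0 < ε / 1000 := by positivity
  filter_upwards [mv_ev C δ0, ev_lin 3 _ δ0 1, mv_ev 9216 one_pos, eventually_ge_atTop (1 : ℝ)]
    with L e1 e2 e3 hL g a0 n t T h3 n0 nL t0 tL hT hB hs r a hr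
  rw [pow_one] at e2
  rw [one_mul] at e3
  obtain ⟨u, hu⟩ : ∃ u, u = ε / 1000 * L := ⟨_, rfl⟩
  have u0 : 0 ≤ u := by rw [hu]; positivity
  rw [← hu] at e1 e2
  have j1 := Nat.le_ceil (2 * L)
  have j2 := Nat.ceil_lt_add_one (show 0 ≤ 2 * L by linarith only [hL])
  generalize ⌈2 * L⌉₊ = J at j1 j2
  have J1 : (1 : ℝ) ≤ J := by linarith only [j1, hL]
  have j3 : (J : ℝ) ≤ exp u := by linarith only [j2, hL, e2]
  obtain ⟨N, W, b, N4, hN, hW, hc, b1, -, b2⟩ := ylog_pig (J := J) (T := T) h3 hs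
    (by nlinarith only [nL, j1, J1, log_two_gt_d9]) (by exact_mod_cast J1) (exp_pos _) hB
    (exp_pos a) ((exp_pos r).trans_le hr)
  have R0 : (0 : ℝ) ≤ #W := Nat.cast_nonneg _
  have hR : exp (r - u) ≤ #W := by
    rw [exp_sub, div_le_iff₀' (exp_pos u)]
    exact (hr.trans hc).trans (mul_le_mul_of_nonneg_right j3 R0)
  have hV : exp (a - 6 * u) ≤ (exp (ε / 200 * L))⁻¹ * (exp a / J) := by
    rw [show a - 6 * u = -(ε / 200 * L) + (a - u) by rw [hu]; ring, exp_add, exp_neg, exp_sub]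
    gcongr
  have t1 : 1 ≤ exp t := one_le_exp t0
  have t2 : exp t ≤ exp L := exp_le_exp.2 tL
  have t3 : ((2 * T + 1 : ℕ) : ℝ) ≤ 3 * exp t := by
    push_cast
    linarith only [hT, t1]
  have t4 : ((2 * T + 1 : ℕ) : ℝ) ≤ exp (t + u) := by
    rw [exp_add, mul_comm (exp t)]
    exact t3.trans (mul_le_mul_of_nonneg_right (by linarith only [e2, hL]) (exp_pos t).le)
  have y0 : exp (3 * L) = exp L * exp L ^ 2 := by rw [← pow_succ', ← exp_nat_mul]; norm_num
  have y1 := Nat.le_ceil (exp (3 * L))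
  have y2 := Nat.ceil_lt_add_one (exp_pos (3 * L)).le
  generalize ⌈exp (3 * L)⌉₊ = Y at y1 y2
  have y3 : 9216 * exp L ^ 2 ≤ Y := by
    refine le_trans ?_ y1
    rw [y0]
    exact mul_le_mul_of_nonneg_right e3 (sq_nonneg _)
  have y4 : 4 * N ^ 2 ≤ Y := by
    have h1 := pow_le_pow_left₀ (Nat.cast_nonneg N) (hN.trans (exp_le_exp.2 nL)) 2
    have h2 : (4 * N ^ 2 : ℝ) ≤ Y := by linarith only [h1, y3, sq_nonneg (exp L)]
    exact_mod_cast h2
  have y5 : 1024 * (2 * T + 1) ^ 2 ≤ Y := by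
    have h1 := pow_le_pow_left₀ (Nat.cast_nonneg (2 * T + 1))
      (t3.trans (mul_le_mul_of_nonneg_left t2 (by norm_num))) 2
    have h2 : (1024 * ((2 * T + 1 : ℕ) : ℝ) ^ 2) ≤ Y := by linarith only [h1, y3]
    exact_mod_cast h2
  have y6 : (Y : ℝ) ≤ exp (4 * L) := by
    have h1 : 1 ≤ exp (3 * L) := one_le_exp (by linarith only [hL])
    rw [show 4 * L = L + 3 * L by ring, exp_add]
    nlinarith only [y2, h1, e3]
  have hE : C * (Y : ℝ) ^ (ε / 20) ≤ exp (201 * u) := by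
    rw [show 201 * u = u + 4 * L * (ε / 20) by rw [hu]; ring, exp_add, exp_mul (4 * L)]
    gcongr
  have W1 : 1 ≤ #W := by exact_mod_cast (show (0 : ℝ) < #W from (exp_pos _).trans_le hR)
  have h := ylog_alt (Nat.cast_nonneg N) (Nat.cast_nonneg _) hE hN t4 hR le_rfl
    (hC Y N (2 * T + 1) W b (exp (a - 6 * u)) N4 y4 (by omega) y5 hW W1
      ⟨b1, (exp_pos _).le, fun s h => hV.trans (b2 s h)⟩)
  have e : ε * L = 1000 * u := by rw [hu]; ring
  rw [e]
  rcases h with h | h | h | h | h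
  · exact .inl (by linarith only [h, u0])
  · exact .inr (.inl (by linarith only [h, u0]))
  · exact .inr (.inr (.inl (by linarith only [h, u0])))
  · exact .inr (.inr (.inr (.inl (by linarith only [h, u0]))))
  · exact .inr (.inr (.inr (.inr (by linarith only [h, u0]))))

end Pool.Agent.MP_71ac24_nt.ZY
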