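import Pool.Agent.MP_71ac24_nt.ZY.DefsB

namespace Pool.Agent.MP_71ac24_nt.ZY
open Finset Real Filter
open Pool.Agent.MP_71ac24_nt.H14 (ei ei_add norm_ei ei_zero conj_ei norm_ei_sub)
open Pool.Agent.MP_71ac24_nt Pool.Agent.MP_a404e6_nt.W
open Pool.Agent.MP_71ac24_nt.ZD (AA AB AD LVG LVA_s)

-- helper lemmas of this row: prefix ylpa_

theorem ylpa_row : LPA_s := by
  intro t P n σ r a e he ht h1 h2 hA m1 m2 ha hr hd
  have t2 : 2 * t ≤ P := (mul_le_mul_of_nonneg_right (le_max_left _ _) ht).trans hA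
  have t3 : 3 * t ≤ (11 * σ - 7) * P := ZD.ds_t (by linarith) ht (le_max_right _ _) hA
  have P0 : 0 ≤ P := by linarith
  have q1 : 0 ≤ (1 - σ) * (P - 4 * n) := mul_nonneg (by linarith) (by linarith)
  have q2 : 0 ≤ (σ - 19 / 25) * (n - P / 6) := mul_nonneg (by linarith) (by linarith)
  have q3 : 0 ≤ (σ - 19 / 25) * P := mul_nonneg (by linarith) P0
  have q4 : 0 ≤ (1 - σ) * P := mul_nonneg (by linarith) P0
  have t6 : 6 * t ≤ (13 * σ - 7) * P := by
    rcases le_total σ (10 / 13) with g | g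
    · linarith [mul_nonneg (sub_nonneg.2 g) P0]
    · linarith [mul_nonneg (sub_nonneg.2 g) P0]
  rcases hd with b | b | b | b | b <;> linarith

end Pool.Agent.MP_71ac24_nt.ZY
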