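import Pool.Agent.MP_71ac24_nt.ZY.DefsB

namespace Pool.Agent.MP_71ac24_nt.ZY
open Finset Real Filter
open Pool.Agent.MP_71ac24_nt.H14 (ei ei_add norm_ei ei_zero conj_ei norm_ei_sub)
open Pool.Agent.MP_71ac24_nt Pool.Agent.MP_a404e6_nt.W
open Pool.Agent.MP_71ac24_nt.ZD (AA AB AD LVG LVA_s)

theorem ylvc_le {σ : ℝ} (h : 19 / 25 ≤ σ) : AC σ ≤ 16 / 7 := by
  refine max_le (by norm_num) ?_
  rw [div_le_iff₀ (by linarith)]; linarith

theorem ylvc_k {P y : ℝ} (hy : 0 < y) (h : y ≤ P / 4) : ∃ k : ℕ,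
    (P / 6 ≤ k * y ∧ k * y ≤ P / 4) ∨ (3 * P / 8 ≤ k * y ∧ k * y ≤ P / 2) := by
  rcases le_total y (P / 8) with g | g
  · obtain ⟨k, k1, k2⟩ := MP_2033ac_nt.PN.lva_k (P := P / 2) hy (by linarith)
    exact ⟨k, Or.inl ⟨by linarith, by linarith⟩⟩
  rcases le_total (P / 6) y with g' | g'
  · exact ⟨1, Or.inl ⟨by push_cast; linarith, by push_cast; linarith⟩⟩
  · exact ⟨3, Or.inr ⟨by push_cast; linarith, by push_cast; linarith⟩⟩

theorem ylvc_mono {e e' t n n' r a η : ℝ} (h : SQ e t n r a) (hn : n = n' + η) (h0 : 0 ≤ η)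
    (he : e + 72 * η ≤ e') : SQ e' t n' r a :=
  h.imp (fun h => by linarith) fun h => h.imp (fun h => by linarith) fun h =>
    h.imp (fun h => by linarith) fun h => h.imp (fun h => by linarith) fun h => by linarith

theorem ylvc_big (hLOG : LOG_s) (hLPA : LPA_s) (hLPB : LPB_s) (κ ε : ℝ) (hκ : 0 < κ) (hε : 0 < ε)
    (hε1 : ε ≤ 1) : ∃ e : ℝ, 0 < e ∧ e ≤ 1 ∧
    ∀ᶠ L : ℝ in atTop, ∀ (f : AF) (y σ : ℝ), Bd f 1 → Sp f y (y + 1 / 20) → κ * L ≤ y →
      y ≤ (1 / 2 + ε / 4) * L → 19 / 25 ≤ σ → σ ≤ 1 →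
        cnt ⌊exp L⌋₊ (fun t => ‖Dp f t‖) (exp (σ * y - e * L)) ≤
          exp ((AC σ * (1 - σ) + ε) * L) := by
  obtain ⟨K, hK⟩ : ∃ K : ℕ, 2 / κ ≤ K := ⟨_, Nat.le_ceil _⟩
  have K0 : (0 : ℝ) ≤ K := Nat.cast_nonneg K
  obtain ⟨e, e0, he⟩ : ∃ e : ℝ, 0 < e ∧ 6000 * (K + 1) * e = ε :=
    ⟨ε / (6000 * (K + 1)), by positivity, by field_simp⟩
  have Ke : 0 ≤ K * e := by positivity
  refine ⟨e, e0, by linarith, ?_⟩
  have hδ : 0 < ε / 18000 := by positivity
  obtain ⟨C, -, hC⟩ := bd_ev K (ε / 18000 / 400) (by positivity)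
  have h3 : Tendsto (fun L : ℝ => 3 * L) atTop atTop := tendsto_id.const_mul_atTop (by norm_num)
  filter_upwards [h3.eventually (hLOG _ hδ), h3.eventually (ZD.ds_gen (k := 2) (by norm_num) _ hδ),
    h3.eventually (mv_ev C (show 0 < ε / 18000 / 400 by positivity)),
    bx_ev hε (9000 * K + 12000 : ℝ), eventually_ge_atTop (K : ℝ), eventually_ge_atTop (9 : ℝ)]
    with L hG d2 e1 e2 e3 e4 f y σ hB hS h1 h2 s1 s2
  have hL : 0 < L := by linarith
  have y0 : 0 < y := lt_of_lt_of_le (mul_pos hκ hL) h1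
  have A1 := mul_le_mul_of_nonneg_right (show 2 ≤ AC σ from le_max_left _ _) hL.le
  have A2 := mul_le_mul_of_nonneg_right (ylvc_le s1) hL.le
  have A3 := mul_le_mul_of_nonneg_right hε1 hL.le
  have A4 : 0 < ε * L := mul_pos hε hL
  obtain ⟨k, hk⟩ := ylvc_k (P := (AC σ + ε) * L) y0 (by linarith)
  have k1 : 3 ≤ k * y := by rcases hk with h | h <;> linarith [h.1]
  have k2 : k * y ≤ 2 * L := by rcases hk with h | h <;> linarith [h.2]
  have k0 : (0 : ℝ) ≤ k := Nat.cast_nonneg k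
  have k3 : (k : ℝ) ≤ K := by
    refine le_trans ?_ hK
    rw [le_div_iff₀ hκ]
    have := mul_le_mul_of_nonneg_left h1 k0
    refine le_of_mul_le_mul_right ?_ hL
    linarith
  have hs : Sp (∏ _i ∈ range k, f) (k * y) (k * y + k / 20) := by
    have := Sp.prod (range k) (f := fun _ => f) (a := fun _ => y) (b := fun _ => y + 1 / 20)
      fun _ _ => hS
    simp only [sum_const, card_range, nsmul_eq_mul] at this
    exact this.mono le_rfl (le_of_eq (by ring))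
  have m0 : 0 ≤ k * y + k / 20 := by positivity
  have mL : k * y + k / 20 ≤ 3 * L := by linarith
  have hb : Bd (∏ _i ∈ range k, f) (exp (ε / 18000 / 200 * (3 * L))) := fun n => by
    refine (hC ℕ (range k) (fun _ => f) _ _ (by rw [card_range]; exact_mod_cast k3) m0
      (fun _ _ => hB) hs n).trans ?_
    rw [show ε / 18000 / 200 * (3 * L) = ε / 18000 / 400 * (3 * L) + ε / 18000 / 400 * (3 * L) by
      ring, exp_add]
    exact mul_le_mul e1 (exp_le_exp.2 (mul_le_mul_of_nonneg_left mL (by positivity)))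
      (exp_pos _).le (exp_pos _).le
  have hb' : Bd (∏ _i ∈ range k, f) (exp (ε / 18000 / 20 * (3 * L))) := fun n =>
    (hb n).trans (exp_le_exp.2 (by linarith))
  have hc1 := MP_2033ac_nt.PN.lva_cnt ⌊exp L⌋₊ k (fun t => ‖Dp f t‖)
    (fun t => ‖Dp (∏ _i ∈ range k, f) t‖) (fun t => by
    rw [Dp_prod (range k) (f := fun _ => f) (a := fun _ => y) (b := fun _ => y + 1 / 20)
      fun _ _ => hS, prod_const, card_range, norm_pow]) (σ * y - e * L)
  have hc2 := cnt_le ⌊exp L⌋₊ (fun t => ‖Dp f t‖) (exp (σ * y - e * L))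
  obtain ⟨N, hN⟩ : ∃ N : ℕ, cnt ⌊exp L⌋₊ (fun t => ‖Dp f t‖) (exp (σ * y - e * L)) = N := ⟨_, rfl⟩
  rw [hN] at hc1 hc2 ⊢
  rcases Nat.eq_zero_or_pos N with rfl | N0
  · exact_mod_cast (exp_pos _).le
  have N1 : (1 : ℝ) ≤ N := by exact_mod_cast N0
  have hU := Nat.floor_le (exp_pos L).le
  have hr : exp (Real.log N) ≤ cnt ⌊exp L⌋₊ (fun t => ‖Dp (∏ _i ∈ range k, f) t‖)
      (exp (k * (σ * y - e * L))) := by rwa [exp_log (by linarith)]
  have r2 : Real.log N ≤ L + 2 := by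
    rw [log_le_iff_le_exp (by linarith), exp_add]
    have a1 := add_one_le_exp (2 : ℝ)
    have a2 := one_le_exp hL.le
    nlinarith
  rw [Nat.cast_ofNat] at d2
  have g5 : 0 ≤ k * e * L := by positivity
  have g6 : k * e * L ≤ K * e * L := by gcongr
  have g7 : 6000 * (K * e * L) ≤ ε * L := by
    rw [← he]; linarith [mul_pos e0 hL]
  have key : Real.log N ≤ 1000 * (ε / 18000 * (3 * L) + 72 * (k / 20) + k * e * L) +
      (1 - σ) * ((AC σ + ε) * L) := by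
    rcases hk with h | h
    · exact hLPA L _ (k * y) σ _ (k * (σ * y - e * L)) _ (by positivity) hL.le s1 s2 (by linarith)
        h.1 h.2 (by linarith) (by linarith)
        (ylvc_mono (hG _ _ _ L _ k1 m0 mL hL.le (by linarith) hU hb hs _ _ hr) rfl (by positivity)
          (by linarith))
    · exact hLPB L _ (k * y) σ _ (k * (σ * y - e * L)) _ (by positivity) hL.le s1 s2 (by linarith)
        h.1 h.2 (by linarith) (by linarith)
        (ZD.ds_mono (d2 _ _ _ L L _ m0 mL hL.le le_rfl (by linarith) hU hb' hs _ _ hr) rfl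
          (by positivity) (by linarith))
  have g8 := mul_le_mul_of_nonneg_right s1 A4.le
  rw [← exp_log (show (0 : ℝ) < N by linarith)]
  exact exp_le_exp.2 (by linarith)

theorem ylvc_row (hLVA : LVA_s) (hLOG : LOG_s) (hLPA : LPA_s) (hLPB : LPB_s) : LVC_s := by
  intro κ ε hκ hε hε1
  obtain ⟨e1, a0, a1, ha⟩ := hLVA κ ε hκ hε hε1
  obtain ⟨e2, b0, -, hb⟩ := ylvc_big hLOG hLPA hLPB κ ε hκ hε hε1
  refine ⟨min e1 e2, lt_min a0 b0, min_le_of_left_le a1, ?_⟩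
  filter_upwards [ha, hb, eventually_ge_atTop (0 : ℝ)] with L ha hb hL f y σ hB hS h1 h2 s1 s2
  have c1 := mul_le_mul_of_nonneg_right (min_le_left e1 e2) hL
  have c2 := mul_le_mul_of_nonneg_right (min_le_right e1 e2) hL
  split_ifs with g
  · exact (ZD.cnt_anti _ _ (exp_le_exp.2 (by linarith))).trans (ha f y σ hB hS h1 h2 s1 s2)
  · exact (ZD.cnt_anti _ _ (exp_le_exp.2 (by linarith))).trans
      (hb f y σ hB hS h1 h2 (not_lt.1 g) s2)

end Pool.Agent.MP_71ac24_nt.ZY
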