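import Pool.Agent.MP_71ac24_nt.ZY.DefsA

namespace Pool.Agent.MP_71ac24_nt.ZY
open Finset Real
open scoped ComplexConjugate
open Pool.Agent.MP_71ac24_nt.H14 (ei ei_add norm_ei ei_zero conj_ei norm_ei_sub)
open Pool.Agent.MP_71ac24_nt.H17 Pool.Agent.MP_71ac24_nt.H17R

-- helper lemmas of this row: prefix ymax_

theorem ymax_sub (H : ℕ) : fr (H / 2) ⊆ fr H := fun f hf => by
  obtain ⟨⟨a, b⟩, ⟨c, d⟩, e⟩ := mem_fr.1 hf
  exact mem_fr.2 ⟨⟨a, by omega⟩, ⟨c, by omega⟩, e⟩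

theorem ymax_one (W : Finset ℤ) : SF W (fr 1) = (#W : ℝ) ^ 2 := by
  have e : fr 1 = {(1, 1)} := by decide
  rw [e, SF, sum_singleton]
  simp [lg, rho, ei_zero]

theorem ymax_row : MAX_s := by
  intro W L hW hL
  have R0 : (0 : ℝ) < #W := by exact_mod_cast hW
  have L1 : 1 ≤ ⌊L⌋₊ := Nat.le_floor (by exact_mod_cast hL)
  obtain ⟨H, hH, hm⟩ := exists_max_image (Icc 1 ⌊L⌋₊)
    (fun H : ℕ => SF W (fr H) / (H * (#W : ℝ) ^ 2)) ⟨1, mem_Icc.2 ⟨le_rfl, L1⟩⟩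
  obtain ⟨H1, H2⟩ := mem_Icc.1 hH
  have H0 : (0 : ℝ) < H := by exact_mod_cast H1
  have HL : (H : ℝ) ≤ L := (Nat.le_floor_iff (by linarith)).1 H2
  obtain ⟨y, hy⟩ : ∃ y, y = SF W (fr H) / (H * (#W : ℝ) ^ 2) := ⟨_, rfl⟩
  rw [← hy] at hm
  have y1 : 1 ≤ y := by
    have := hm 1 (mem_Icc.2 ⟨le_rfl, L1⟩)
    rwa [ymax_one, Nat.cast_one, one_mul, div_self (by positivity)] at this
  have hY : YB W L y := fun K K1 K2 => by
    have K0 : (0 : ℝ) < K := by exact_mod_cast K1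
    have := hm K (mem_Icc.2 ⟨K1, Nat.le_floor K2⟩)
    rwa [div_le_iff₀ (by positivity), ← mul_assoc] at this
  have e1 : SF W (fr H) = y * H * (#W : ℝ) ^ 2 := by rw [hy]; field_simp
  have e2 : SF W (tb H) + SF W (fr (H / 2)) = SF W (fr H) := sum_sdiff (ymax_sub H)
  have e3 : SF W (fr (H / 2)) ≤ y * (H / 2) * (#W : ℝ) ^ 2 := by
    rcases Nat.eq_zero_or_pos (H / 2) with g | g
    · rw [g]
      have : fr 0 = ∅ := by decide
      rw [this, SF, sum_empty]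
      exact mul_nonneg (mul_nonneg (by linarith) (by linarith)) (sq_nonneg _)
    · have k : ((H / 2 : ℕ) : ℝ) ≤ H / 2 := Nat.cast_div_le
      exact (hY _ g (by linarith)).trans (mul_le_mul_of_nonneg_right
        (mul_le_mul_of_nonneg_left k (by linarith)) (sq_nonneg _))
  exact ⟨H, y, H1, HL, y1, hY, by linarith, by linarith [SF_nonneg W (fr (H / 2))]⟩

end Pool.Agent.MP_71ac24_nt.ZY
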