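import Pool.Agent.MP_71ac24_nt.ZY.DefsA

namespace Pool.Agent.MP_71ac24_nt.ZY
open Finset Real
open scoped ComplexConjugate
open Pool.Agent.MP_71ac24_nt.H14 (ei ei_add norm_ei ei_zero conj_ei norm_ei_sub)
open Pool.Agent.MP_71ac24_nt.H17 Pool.Agent.MP_71ac24_nt.H17R

-- helper lemmas of this row: prefix ysch_

noncomputable def ysch_z (N : ℕ) (p : (ℕ × ℕ) × ℕ) : ℝ := lg p.1 + Real.log p.2 - Real.log N

theorem ysch_mem {H : ℕ} {f : ℕ × ℕ} (hf : f ∈ tb H) :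
    1 ≤ f.1 ∧ f.1 ≤ H ∧ 1 ≤ f.2 ∧ f.2 ≤ H ∧ f.1 ≤ 2 * f.2 ∧ f.2 ≤ 2 * f.1 := by
  have h := mem_filter.1 (mem_sdiff.1 hf).1
  have h1 := mem_product.1 h.1
  exact ⟨(mem_Icc.1 h1.1).1, (mem_Icc.1 h1.1).2, (mem_Icc.1 h1.2).1, (mem_Icc.1 h1.2).2,
    h.2.2.1, h.2.2.2⟩

theorem ysch_log {x y : ℕ} (hx : 1 ≤ x) (hy : 1 ≤ y) (h : x ≤ 2 * y) :
    Real.log x - Real.log y ≤ 7 / 10 := by
  have x0 : (0 : ℝ) < x := by exact_mod_cast hx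
  have y0 : (0 : ℝ) < y := by exact_mod_cast hy
  have h1 : (x : ℝ) ≤ 2 * y := by exact_mod_cast h
  have h2 := Real.log_le_log x0 h1
  rw [Real.log_mul two_ne_zero y0.ne'] at h2
  have h3 := Real.log_two_lt_d9
  linarith

theorem ysch_abs {N H : ℕ} (hN : 1 ≤ N) {p : (ℕ × ℕ) × ℕ} (hp : p ∈ tb H ×ˢ Ioc N (2 * N)) :
    |ysch_z N p| ≤ (2 : ℕ) := by
  obtain ⟨h1, h2⟩ := mem_product.1 hp
  obtain ⟨a1, -, b1, -, c1, c2⟩ := ysch_mem h1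
  obtain ⟨n1, n2⟩ := mem_Ioc.1 h2
  have e1 := ysch_log a1 b1 c1
  have e2 := ysch_log b1 a1 c2
  have e3 := ysch_log (x := p.2) (y := N) (by omega) hN n2
  have e4 := ysch_log (x := N) (y := p.2) hN (by omega) (by omega)
  unfold ysch_z lg
  rw [abs_le]
  push_cast
  constructor <;> linarith

theorem ysch_sub {N H : ℕ} (hN : 1 ≤ N) {p p' : (ℕ × ℕ) × ℕ} (hp : p ∈ tb H ×ˢ Ioc N (2 * N))
    (hp' : p' ∈ tb H ×ˢ Ioc N (2 * N)) : ysch_z N p - ysch_z N p' =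
      Real.log ((p.1.1 * p.2 * p'.1.2 : ℕ) : ℝ) - Real.log ((p'.1.1 * p'.2 * p.1.2 : ℕ) : ℝ) := by
  obtain ⟨h1, h2⟩ := mem_product.1 hp
  obtain ⟨a1, -, b1, -, -, -⟩ := ysch_mem h1
  obtain ⟨n1, -⟩ := mem_Ioc.1 h2
  obtain ⟨h3, h4⟩ := mem_product.1 hp'
  obtain ⟨a2, -, b2, -, -, -⟩ := ysch_mem h3
  obtain ⟨n2, -⟩ := mem_Ioc.1 h4
  have e1 : (p.1.1 : ℝ) ≠ 0 := by exact_mod_cast (by omega : p.1.1 ≠ 0)
  have e2 : (p.1.2 : ℝ) ≠ 0 := by exact_mod_cast (by omega : p.1.2 ≠ 0)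
  have e3 : (p.2 : ℝ) ≠ 0 := by exact_mod_cast (by omega : p.2 ≠ 0)
  have e4 : (p'.1.1 : ℝ) ≠ 0 := by exact_mod_cast (by omega : p'.1.1 ≠ 0)
  have e5 : (p'.1.2 : ℝ) ≠ 0 := by exact_mod_cast (by omega : p'.1.2 ≠ 0)
  have e6 : (p'.2 : ℝ) ≠ 0 := by exact_mod_cast (by omega : p'.2 ≠ 0)
  push_cast
  rw [Real.log_mul (mul_ne_zero e1 e3) e5, Real.log_mul e1 e3,
    Real.log_mul (mul_ne_zero e4 e6) e2, Real.log_mul e4 e6]
  unfold ysch_z lg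
  ring

theorem ysch_le {N H L : ℕ} (hN : 1 ≤ N) (hL : 2 * N * H ^ 2 < L) {p p' : (ℕ × ℕ) × ℕ}
    (hp : p ∈ tb H ×ˢ Ioc N (2 * N)) (hp' : p' ∈ tb H ×ˢ Ioc N (2 * N))
    (h : ysch_z N p - ysch_z N p' ≤ 1 / L) : p.1.1 * p.2 * p'.1.2 ≤ p'.1.1 * p'.2 * p.1.2 := by
  rw [ysch_sub hN hp hp'] at h
  obtain ⟨h1, h2⟩ := mem_product.1 hp
  obtain ⟨a1, a1', b1, -, -, -⟩ := ysch_mem h1
  obtain ⟨n1, n1'⟩ := mem_Ioc.1 h2
  obtain ⟨h3, h4⟩ := mem_product.1 hp'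
  obtain ⟨a2, -, b2, b2', -, -⟩ := ysch_mem h3
  obtain ⟨n2, -⟩ := mem_Ioc.1 h4
  refine win_le (Nat.mul_pos (Nat.mul_pos a1 (by omega)) b2)
    (Nat.mul_pos (Nat.mul_pos a2 (by omega)) b1) (lt_of_le_of_lt ?_ hL) h
  calc p.1.1 * p.2 * p'.1.2 ≤ H * (2 * N) * H := Nat.mul_le_mul (Nat.mul_le_mul a1' n1') b2'
    _ = 2 * N * H ^ 2 := by ring

theorem ysch_nu {N H L : ℕ} (hN : 1 ≤ N) (hL : 2 * N * H ^ 2 < L) (z : ℝ) :
    (#{q ∈ (tb H ×ˢ Ioc N (2 * N)).image (ysch_z N) | z ≤ q ∧ q ≤ z + 1 / L} : ℝ) ≤ 1 := by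
  have h : #{q ∈ (tb H ×ˢ Ioc N (2 * N)).image (ysch_z N) | z ≤ q ∧ q ≤ z + 1 / L} ≤ 1 := by
    rw [card_le_one]
    intro q hq q' hq'
    obtain ⟨h1, h2, h3⟩ := mem_filter.1 hq
    obtain ⟨h4, h5, h6⟩ := mem_filter.1 hq'
    obtain ⟨p, hp, rfl⟩ := mem_image.1 h1
    obtain ⟨p', hp', rfl⟩ := mem_image.1 h4
    have e1 := ysch_le hN hL hp hp' (by linarith)
    have e2 := ysch_le hN hL hp' hp (by linarith)
    have e3 := ysch_sub hN hp hp'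
    rw [le_antisymm e1 e2, sub_self] at e3
    linarith
  exact_mod_cast h

theorem ysch_cnt (hGCD : GCD_s) {N H : ℕ} (hN : 1 ≤ N) {f : ℕ × ℕ} (hf : f ∈ tb H) :
    ∑ n ∈ Ioc N (2 * N), #{p' ∈ tb H ×ˢ Ioc N (2 * N) | ysch_z N p' = ysch_z N (f, n)} ≤
      32 * N * (#f.1.divisors * #f.2.divisors) := by
  refine le_trans ?_ (hGCD N H f hf)
  simp only [card_filter, sum_product]
  rw [sum_comm]
  refine sum_le_sum fun f' hf' => sum_le_sum fun n hn => sum_le_sum fun n' hn' => ?_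
  by_cases h : ysch_z N (f', n') = ysch_z N (f, n)
  · have hp : (f, n) ∈ tb H ×ˢ Ioc N (2 * N) := mem_product.2 ⟨hf, hn⟩
    have hp' : (f', n') ∈ tb H ×ˢ Ioc N (2 * N) := mem_product.2 ⟨hf', hn'⟩
    have h0 : (0 : ℝ) ≤ 1 / ((2 * N * H ^ 2 + 1 : ℕ) : ℝ) := by positivity
    have e1 := ysch_le hN (Nat.lt_succ_self _) hp hp' (by rw [h, sub_self]; exact h0)
    have e2 := ysch_le hN (Nat.lt_succ_self _) hp' hp (by rw [h, sub_self]; exact h0)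
    rw [if_pos h, if_pos (le_antisymm e1 e2)]
  · rw [if_neg h]
    exact Nat.zero_le _

theorem ysch_coef (hGCD : GCD_s) {N H : ℕ} (hN : 1 ≤ N) (g : (ℕ × ℕ) × ℕ → ℂ) (r : ℕ × ℕ → ℝ)
    (hg : ∀ p, ‖g p‖ ^ 2 ≤ r p.1) (hr : ∀ f, 0 ≤ r f) {B : ℝ}
    (hB : ∀ f ∈ tb H, (#f.1.divisors : ℝ) * #f.2.divisors ≤ B) :
    ∑ q ∈ (tb H ×ˢ Ioc N (2 * N)).image (ysch_z N),
      ‖∑ p ∈ tb H ×ˢ Ioc N (2 * N) with ysch_z N p = q, g p‖ ^ 2 ≤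
      32 * N * B * ∑ f ∈ tb H, r f := by
  have h1 : ∀ q ∈ (tb H ×ˢ Ioc N (2 * N)).image (ysch_z N),
      ‖∑ p ∈ tb H ×ˢ Ioc N (2 * N) with ysch_z N p = q, g p‖ ^ 2 ≤
      ∑ p ∈ tb H ×ˢ Ioc N (2 * N) with ysch_z N p = q,
        (#{p' ∈ tb H ×ˢ Ioc N (2 * N) | ysch_z N p' = ysch_z N p} : ℝ) * r p.1 := by
    intro q _
    refine (pow_le_pow_left₀ (norm_nonneg _) (norm_sum_le _ _) 2).trans
      (sq_sum_le_card_mul_sum_sq.trans ?_)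
    rw [mul_sum]
    refine sum_le_sum fun p hp => ?_
    rw [(mem_filter.1 hp).2]
    exact mul_le_mul_of_nonneg_left (hg p) (Nat.cast_nonneg _)
  refine (sum_le_sum h1).trans ?_
  rw [sum_fiberwise_of_maps_to (fun p hp => mem_image_of_mem _ hp), sum_product, mul_sum]
  refine sum_le_sum fun f hf => ?_
  dsimp only
  rw [← sum_mul]
  refine mul_le_mul_of_nonneg_right ?_ (hr f)
  have h2 : ((∑ n ∈ Ioc N (2 * N),
      #{p' ∈ tb H ×ˢ Ioc N (2 * N) | ysch_z N p' = ysch_z N (f, n)} : ℕ) : ℝ) ≤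
      ((32 * N * (#f.1.divisors * #f.2.divisors) : ℕ) : ℝ) := by
    exact_mod_cast ysch_cnt hGCD hN hf
  push_cast at h2
  exact h2.trans (mul_le_mul_of_nonneg_left (hB f hf) (by positivity))

theorem ysch_prod (N H : ℕ) (u : ℕ × ℕ → ℂ) (a : ℕ → ℂ) (t : ℝ) :
    ‖∑ f ∈ tb H, u f * ei (t * lg f)‖ * ‖DP N a t‖ =
      ‖∑ q ∈ (tb H ×ˢ Ioc N (2 * N)).image (ysch_z N),
        (∑ p ∈ tb H ×ˢ Ioc N (2 * N) with ysch_z N p = q, u p.1 * a p.2) * ei (t * q)‖ := by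
  have h1 : ∑ q ∈ (tb H ×ˢ Ioc N (2 * N)).image (ysch_z N),
      (∑ p ∈ tb H ×ˢ Ioc N (2 * N) with ysch_z N p = q, u p.1 * a p.2) * ei (t * q) =
      ∑ p ∈ tb H ×ˢ Ioc N (2 * N), u p.1 * a p.2 * ei (t * ysch_z N p) := by
    rw [← sum_fiberwise_of_maps_to (s := tb H ×ˢ Ioc N (2 * N))
      (fun p hp => mem_image_of_mem (ysch_z N) hp)]
    refine sum_congr rfl fun q _ => ?_
    rw [sum_mul]
    refine sum_congr rfl fun p hp => ?_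
    rw [(mem_filter.1 hp).2]
  have h2 : (∑ f ∈ tb H, u f * ei (t * lg f)) * DP N a t =
      (∑ p ∈ tb H ×ˢ Ioc N (2 * N), u p.1 * a p.2 * ei (t * ysch_z N p)) *
        ei (t * Real.log N) := by
    rw [DP, sum_mul_sum, sum_mul, sum_product]
    refine sum_congr rfl fun f _ => sum_congr rfl fun n _ => ?_
    have h3 : ei (t * ysch_z N (f, n)) * ei (t * Real.log N) =
        ei (t * lg f) * ei (t * Real.log n) := by
      rw [← ei_add, ← ei_add]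
      congr 1
      unfold ysch_z
      ring
    rw [mul_assoc (u f * a n), h3]
    ring
  rw [h1, ← norm_mul, h2, norm_mul, norm_ei, mul_one]

theorem ysch_row (hGCD : GCD_s) : SCH_s := by
  intro ε hε
  obtain ⟨C0, C1, hC⟩ := dsl_tau 1 (half_pos hε)
  refine ⟨7488 * C0 ^ 2, by positivity, fun Y N T H W a V hN hH hHY hW hB => ?_⟩
  obtain ⟨ha, hV, hD⟩ := hB
  have hY : 1 ≤ Y := hH.trans hHY
  have Y0 : (0 : ℝ) < Y := by exact_mod_cast hY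
  have hE : (C0 * (Y : ℝ) ^ (ε / 2)) * (C0 * (Y : ℝ) ^ (ε / 2)) = C0 ^ 2 * (Y : ℝ) ^ ε := by
    have : (Y : ℝ) ^ ε = (Y : ℝ) ^ (ε / 2) * (Y : ℝ) ^ (ε / 2) := by
      rw [← Real.rpow_add Y0, add_halves]
    rw [this]
    ring
  have hτ : ∀ f ∈ tb H, (#f.1.divisors : ℝ) * #f.2.divisors ≤ C0 ^ 2 * (Y : ℝ) ^ ε := by
    intro f hf
    obtain ⟨a1, a2, b1, b2, -, -⟩ := ysch_mem hf
    rw [← hE]
    exact mul_le_mul (hC Y hY f.1 (by omega) (by rw [pow_one]; omega))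
      (hC Y hY f.2 (by omega) (by rw [pow_one]; omega)) (Nat.cast_nonneg _) (by positivity)
  have h1 := ysch_coef hGCD hN (fun p => conj (rho W (lg p.1)) * a p.2)
    (fun f => ‖rho W (lg f)‖ ^ 2) (fun p => by
      rw [norm_mul, Complex.norm_conj]
      exact pow_le_pow_left₀ (by positivity) (mul_le_of_le_one_right (norm_nonneg _) (ha _)) 2)
    (fun f => by positivity) hτ
  have h2 := l2long ((tb H ×ˢ Ioc N (2 * N)).image (ysch_z N)) (fun q => q)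
    (L := T + 2 * N * H ^ 2 + 1) (K := 2) (by omega) (ν := 1) (fun q hq => by
      obtain ⟨p, hp, rfl⟩ := mem_image.1 hq
      exact ysch_abs hN hp) (ysch_nu hN (by omega)) W (fun t ht => by
      obtain ⟨t0, t1⟩ := hW t ht
      rw [abs_of_nonneg t0]
      refine t1.trans ?_
      exact_mod_cast (by omega : T ≤ T + 2 * N * H ^ 2 + 1))
    (fun q => ∑ p ∈ tb H ×ˢ Ioc N (2 * N) with ysch_z N p = q, conj (rho W (lg p.1)) * a p.2)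
  have h3 : SF W (tb H) * V ≤ ∑ t ∈ W, ‖∑ q ∈ (tb H ×ˢ Ioc N (2 * N)).image (ysch_z N),
      (∑ p ∈ tb H ×ˢ Ioc N (2 * N) with ysch_z N p = q, conj (rho W (lg p.1)) * a p.2) *
        ei (t * q)‖ := by
    refine (mul_le_mul_of_nonneg_right (lam_dual W (tb H)) hV).trans ?_
    rw [sum_mul]
    refine sum_le_sum fun t ht => ?_
    rw [← ysch_prod N H (fun f => conj (rho W (lg f))) a t]
    exact mul_le_mul_of_nonneg_left (hD t ht) (norm_nonneg _)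
  have S0 : 0 ≤ SF W (tb H) := sum_nonneg fun f _ => by positivity
  have h4 := (pow_le_pow_left₀ (mul_nonneg S0 hV) h3 2).trans sq_sum_le_card_mul_sum_sq
  have hL : ((T + 2 * N * H ^ 2 + 1 : ℕ) : ℝ) ≤ 3 * (T + N * H ^ 2) := by
    have e1 : 1 ≤ N * H ^ 2 := Nat.mul_pos hN (pow_pos hH 2)
    have e2 : T + 2 * N * H ^ 2 + 1 ≤ 3 * (T + N * H ^ 2) := by
      rw [mul_assoc]
      omega
    exact_mod_cast e2
  have h5 : (SF W (tb H) * V) ^ 2 ≤ #W * (26 * (((2 : ℕ) : ℝ) + 1) * 1 * (3 * (T + N * H ^ 2)) *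
      (32 * N * (C0 ^ 2 * (Y : ℝ) ^ ε) * SF W (tb H))) := by
    refine h4.trans (mul_le_mul_of_nonneg_left (h2.trans ?_) (Nat.cast_nonneg _))
    exact mul_le_mul (mul_le_mul_of_nonneg_left hL (by positivity)) h1
      (sum_nonneg fun q _ => by positivity) (by positivity)
  rcases S0.eq_or_lt with h | h
  · rw [← h, zero_mul]
    positivity
  · refine le_of_mul_le_mul_left (le_trans (le_of_eq ?_) (h5.trans (le_of_eq ?_))) h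
    · ring
    · push_cast
      ring

end Pool.Agent.MP_71ac24_nt.ZY
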