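import Pool.Agent.MP_71ac24_nt.ZY.DefsA

namespace Pool.Agent.MP_71ac24_nt.ZY
open Finset Real
open scoped ComplexConjugate
open Pool.Agent.MP_71ac24_nt.H14 (ei ei_add norm_ei ei_zero conj_ei norm_ei_sub)
open Pool.Agent.MP_71ac24_nt.H17 Pool.Agent.MP_71ac24_nt.H17R

-- helper lemmas of this row: prefix ysqr_

theorem ysqr_sq (N : ℕ) (a : ℕ → ℂ) (t : ℝ) (b : ℕ → ℂ)
    (hb : ∀ m, b m = ∑ p ∈ (Ioc N (2 * N) ×ˢ Ioc N (2 * N)).filter (fun p => p.1 * p.2 = m),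
      a p.1 * a p.2) :
    DP N a t ^ 2 = DP (N ^ 2) b t + DP (2 * N ^ 2) b t := by
  unfold DP
  rw [sum_Ioc_consecutive _ (by omega) (by omega), sq, sum_mul_sum, ← sum_product',
    ← sum_fiberwise_of_maps_to (t := Ioc (N ^ 2) (2 * (2 * N ^ 2))) (g := fun p => p.1 * p.2)]
  · refine sum_congr rfl fun m _ => ?_
    rw [hb, sum_mul]
    refine sum_congr rfl fun p hp => ?_
    obtain ⟨h1, h2⟩ := mem_filter.1 hp
    obtain ⟨h3, h4⟩ := mem_product.1 h1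
    have p1 : (p.1 : ℝ) ≠ 0 := by
      have := (mem_Ioc.1 h3).1
      exact_mod_cast (by omega : p.1 ≠ 0)
    have p2 : (p.2 : ℝ) ≠ 0 := by
      have := (mem_Ioc.1 h4).1
      exact_mod_cast (by omega : p.2 ≠ 0)
    rw [← h2, Nat.cast_mul, Real.log_mul p1 p2, mul_add, ei_add]
    ring
  · intro p hp
    obtain ⟨h3, h4⟩ := mem_product.1 hp
    obtain ⟨a1, a2⟩ := mem_Ioc.1 h3
    obtain ⟨a3, a4⟩ := mem_Ioc.1 h4
    refine mem_Ioc.2 ⟨?_, ?_⟩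
    · rw [sq]
      exact Nat.mul_lt_mul'' a1 a3
    · refine (Nat.mul_le_mul a2 a4).trans (le_of_eq ?_)
      ring

theorem ysqr_b (N : ℕ) (a : ℕ → ℂ) (ha : ∀ n, ‖a n‖ ≤ 1) (E : ℝ) (hE : 0 ≤ E)
    (h : ∀ m : ℕ, m ≠ 0 → m ≤ 4 * N ^ 2 → (#m.divisors : ℝ) ≤ E) (m : ℕ) :
    ‖∑ p ∈ (Ioc N (2 * N) ×ˢ Ioc N (2 * N)).filter (fun p => p.1 * p.2 = m),
      a p.1 * a p.2‖ ≤ E := by
  rcases ((Ioc N (2 * N) ×ˢ Ioc N (2 * N)).filter
    (fun p => p.1 * p.2 = m)).eq_empty_or_nonempty with h0 | ⟨q, hq⟩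
  · rw [h0]; simpa using hE
  obtain ⟨h1, h2⟩ := mem_filter.1 hq
  obtain ⟨h3, h4⟩ := mem_product.1 h1
  obtain ⟨a1, a2⟩ := mem_Ioc.1 h3
  obtain ⟨a3, a4⟩ := mem_Ioc.1 h4
  have m0 : m ≠ 0 := h2 ▸ Nat.mul_ne_zero (by omega) (by omega)
  have m1 : m ≤ 4 * N ^ 2 := h2 ▸ (Nat.mul_le_mul a2 a4).trans (le_of_eq (by ring))
  refine (norm_sum_le _ _).trans ((sum_le_card_nsmul _ _ 1 fun p _ => ?_).trans ?_)
  · rw [norm_mul]
    exact mul_le_one₀ (ha _) (norm_nonneg _) (ha _)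
  · rw [nsmul_eq_mul, mul_one]
    refine le_trans ?_ (h m m0 m1)
    refine Nat.cast_le.2 (card_le_card_of_injOn Prod.fst (fun p hp => ?_) fun p hp p' hp' e => ?_)
    · exact mem_coe.2 (Nat.mem_divisors.2 ⟨Dvd.intro _ (mem_filter.1 (mem_coe.1 hp)).2, m0⟩)
    · have e1 := (mem_filter.1 (mem_coe.1 hp)).2
      have e2 := (mem_filter.1 (mem_coe.1 hp')).2
      have e3 : p.1 ≠ 0 := fun h0 => m0 (by rw [← e1, h0, zero_mul])
      refine Prod.ext e (Nat.eq_of_mul_eq_mul_left (Nat.pos_of_ne_zero e3) ?_)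
      rw [e1, e, e2]

theorem ysqr_row (hBLY : BLY_s) : SQR_s := by
  intro ε hε
  obtain ⟨C, hC, H⟩ := hBLY (ε / 3) (by positivity)
  obtain ⟨D, hD, HD⟩ := dsl_tau 1 (η := ε / 3) (by positivity)
  refine ⟨10 * D ^ 2 * C, by positivity, fun Y N T W a V y hN hNY hT hY hW hB hy hYB => ?_⟩
  obtain ⟨ha, hV, hB⟩ := hB
  have Y1 : 1 ≤ Y := hT.trans hY
  have Y1' : (1 : ℝ) ≤ Y := by exact_mod_cast Y1
  have N1 : 1 ≤ N ^ 2 := Nat.one_le_pow _ _ hN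
  have N0 : (0 : ℝ) < N := by exact_mod_cast hN
  obtain ⟨u, hu⟩ : ∃ u : ℝ, u = (Y : ℝ) ^ (ε / 3) := ⟨_, rfl⟩
  have u1 : 1 ≤ u := hu ▸ one_le_rpow Y1' (by positivity)
  have u3 : (Y : ℝ) ^ ε = u ^ 3 := by
    rw [hu, ← Real.rpow_natCast, ← Real.rpow_mul (by positivity)]
    congr 1
    push_cast
    ring
  have E0 : 0 < D * u := by positivity
  obtain ⟨b, hb⟩ : ∃ b : ℕ → ℂ, ∀ m, b m = ∑ p ∈ (Ioc N (2 * N) ×ˢ Ioc N (2 * N)).filter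
    (fun p => p.1 * p.2 = m), a p.1 * a p.2 := ⟨_, fun _ => rfl⟩
  have b1 : ∀ m, ‖b m / ((D * u : ℝ) : ℂ)‖ ≤ 1 := fun m => by
    rw [norm_div, Complex.norm_real, Real.norm_of_nonneg E0.le, div_le_one E0, hb]
    exact ysqr_b N a ha _ E0.le (fun m m0 m1 => hu ▸ HD Y Y1 m m0 (by rw [pow_one]; omega)) m
  have key : ∀ M : ℕ, N ^ 2 ≤ M → M ≤ Y → ∑ t ∈ W, ‖DP M b t‖ ^ 2 ≤
      (D * u) ^ 2 * (C * u * (M + √(M * y) * #W) * M) := by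
    intro M h1 h2
    have h3 := H Y M T W (fun m => b m / ((D * u : ℝ) : ℂ)) y (N1.trans h1) h2 hT hY hW b1 hy
      fun K k1 k2 => hYB K k1 (k2.trans (by
        have h4 : (N : ℝ) ^ 2 ≤ M := by exact_mod_cast h1
        have h5 : (Y : ℝ) ^ (ε / 3) ≤ (Y : ℝ) ^ ε :=
          Real.rpow_le_rpow_of_exponent_le Y1' (by linarith only [hε])
        gcongr))
    rw [← hu] at h3
    refine le_trans (le_of_eq ?_) (mul_le_mul_of_nonneg_left h3 (sq_nonneg _))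
    rw [mul_sum]
    refine sum_congr rfl fun t _ => ?_
    have h6 : DP M b t = ((D * u : ℝ) : ℂ) * DP M (fun m => b m / ((D * u : ℝ) : ℂ)) t := by
      unfold DP
      rw [mul_sum]
      refine sum_congr rfl fun m _ => ?_
      have : ((D * u : ℝ) : ℂ) ≠ 0 := by exact_mod_cast E0.ne'
      field_simp
    rw [h6, norm_mul, mul_pow, Complex.norm_real, Real.norm_of_nonneg E0.le]
  have k1 := key (N ^ 2) le_rfl (by omega)
  have k2 := key (2 * N ^ 2) (by omega) (by omega)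
  have k3 : #W * V ^ 4 ≤ 2 * ∑ t ∈ W, ‖DP (N ^ 2) b t‖ ^ 2 +
      2 * ∑ t ∈ W, ‖DP (2 * N ^ 2) b t‖ ^ 2 := by
    rw [mul_sum, mul_sum, ← sum_add_distrib, ← nsmul_eq_mul]
    refine card_nsmul_le_sum _ _ _ fun t ht => ?_
    have h1 : V ^ 2 ≤ ‖DP (N ^ 2) b t‖ + ‖DP (2 * N ^ 2) b t‖ := by
      refine (pow_le_pow_left₀ hV (hB t ht) 2).trans ?_
      rw [← norm_pow, ysqr_sq N a t b hb]
      exact norm_add_le _ _
    have h2 := pow_le_pow_left₀ (sq_nonneg V) h1 2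
    nlinarith only [h2, sq_nonneg (‖DP (N ^ 2) b t‖ - ‖DP (2 * N ^ 2) b t‖)]
  have s1 : √(((N ^ 2 : ℕ) : ℝ) * y) = N * √y := by
    rw [Nat.cast_pow, Real.sqrt_mul (sq_nonneg _), Real.sqrt_sq N0.le]
  have s2 : √(((2 * N ^ 2 : ℕ) : ℝ) * y) ≤ 2 * (N * √y) := by
    rw [Real.sqrt_le_left (by positivity), mul_pow, mul_pow, sq_sqrt (by positivity)]
    push_cast
    have : 0 ≤ (N : ℝ) ^ 2 * y := by positivity
    nlinarith only [this]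
  rw [s1] at k1
  have k4 : ∑ t ∈ W, ‖DP (2 * N ^ 2) b t‖ ^ 2 ≤ (D * u) ^ 2 *
      (C * u * ((2 * N ^ 2 : ℕ) + 2 * (N * √y) * #W) * (2 * N ^ 2 : ℕ)) :=
    k2.trans (by gcongr)
  rw [u3]
  push_cast at k1 k4
  linarith only [k1, k3, k4]

end Pool.Agent.MP_71ac24_nt.ZY
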