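import Pool.Agent.MP_71ac24_nt.ZD.All
import Pool.Agent.MP_71ac24_nt.ZY.RDSY
import Pool.Agent.MP_71ac24_nt.ZY.RHSY
import Pool.Agent.MP_71ac24_nt.ZY.RBLY
import Pool.Agent.MP_71ac24_nt.ZY.RSQR
import Pool.Agent.MP_71ac24_nt.ZY.RGCD
import Pool.Agent.MP_71ac24_nt.ZY.RSCH
import Pool.Agent.MP_71ac24_nt.ZY.RDU1
import Pool.Agent.MP_71ac24_nt.ZY.RDUA
import Pool.Agent.MP_71ac24_nt.ZY.RMAX
import Pool.Agent.MP_71ac24_nt.ZY.RL2K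
import Pool.Agent.MP_71ac24_nt.ZY.RCORE
import Pool.Agent.MP_71ac24_nt.ZY.RLOG
import Pool.Agent.MP_71ac24_nt.ZY.RLPA
import Pool.Agent.MP_71ac24_nt.ZY.RLPB
import Pool.Agent.MP_71ac24_nt.ZY.RLVC
import Pool.Agent.MP_71ac24_nt.ZY.RFIN

namespace Pool.Agent.MP_71ac24_nt.ZY

theorem core_all : CORE_s :=
  ycore_row (ysqr_row (ybly_row (yhsy_row ydsy_row))) (ysch_row ygcd_row)
    (ydua_row ydu1_row ydsy_row (yhsy_row ydsy_row)) ymax_row yl2k_row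

theorem adm_all : ZD.Adm AE :=
  yfin_row (ZD.lva_row ZD.lp_row)
    (ylvc_row (ZD.lva_row ZD.lp_row) (ylog_row core_all) ylpa_row ylpb_row)

end Pool.Agent.MP_71ac24_nt.ZY
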