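import Pool.Agent.MP_71ac24_nt.H17R.Main

/-! A large values estimate for squares: statements on integer points. -/

namespace Pool.Agent.MP_71ac24_nt.ZY
open Finset Real
open scoped ComplexConjugate
open Pool.Agent.MP_71ac24_nt.H14 (ei)
open Pool.Agent.MP_71ac24_nt.H17 (rho DP Gs Im)
open Pool.Agent.MP_71ac24_nt.H17R (fr SF ZI DS BD)

/-- the points lie in `[0, T]` -/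
def In (W : Finset ℤ) (T : ℕ) : Prop := ∀ t ∈ W, 0 ≤ t ∧ t ≤ T

/-- `y` bounds the normalised sums over fractions of height at most `L` -/
def YB (W : Finset ℤ) (L y : ℝ) : Prop :=
  ∀ H : ℕ, 1 ≤ H → (H : ℝ) ≤ L → SF W (fr H) ≤ y * H * (#W : ℝ) ^ 2

/-- the top block of fractions -/
def tb (H : ℕ) : Finset (ℕ × ℕ) := fr H \ fr (H / 2)

/-- the off-diagonal sum -/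
noncomputable def HS (W : Finset ℤ) (M : ℕ) : ℝ :=
  ∑ t ∈ W, ∑ t' ∈ W, ‖Gs M ((t - t' : ℤ) : ℝ) - Im M ((t - t' : ℤ) : ℝ) 0‖ ^ 2

/-- large values of a block -/
def Big (W : Finset ℤ) (N : ℕ) (a : ℕ → ℂ) (V : ℝ) : Prop :=
  (∀ n, ‖a n‖ ≤ 1) ∧ 0 ≤ V ∧ ∀ t ∈ W, V ≤ ‖DP N a t‖

def DSY_s : Prop := ∀ ε : ℝ, 0 < ε → ∃ C : ℝ, 0 < C ∧ ∀ (Y Q : ℕ) (W : Finset ℤ) (I : Finset ℕ)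
  (y : ℝ), 1 ≤ Q → Q ≤ Y → 0 ≤ y → (∀ m ∈ I, 1 ≤ m ∧ m ≤ Q) → (∀ m ∈ I, ∀ m' ∈ I, m ≤ 2 * m') →
    YB W Q y → DS W I ≤ C * (Y : ℝ) ^ ε * (Q * y * (#W : ℝ) ^ 2)

def HSY_s : Prop := ∀ ε : ℝ, 0 < ε → ∃ C : ℝ, 0 < C ∧ ∀ (Y M T : ℕ) (W : Finset ℤ) (y : ℝ),
  1 ≤ M → M ≤ Y → 1 ≤ T → T ≤ Y → In W T → 1 ≤ y → YB W (4 * (Y : ℝ) ^ ε * T / M) y →
    HS W M ≤ C * (Y : ℝ) ^ ε * (M * y * (#W : ℝ) ^ 2)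

def BLY_s : Prop := ∀ ε : ℝ, 0 < ε → ∃ C : ℝ, 0 < C ∧ ∀ (Y M T : ℕ) (W : Finset ℤ) (a : ℕ → ℂ)
  (y : ℝ), 1 ≤ M → M ≤ Y → 1 ≤ T → T ≤ Y → In W T → (∀ n, ‖a n‖ ≤ 1) → 1 ≤ y →
    YB W (4 * (Y : ℝ) ^ ε * T / M) y →
      ∑ t ∈ W, ‖DP M a t‖ ^ 2 ≤ C * (Y : ℝ) ^ ε * (M + √(M * y) * #W) * M

def SQR_s : Prop := ∀ ε : ℝ, 0 < ε → ∃ C : ℝ, 0 < C ∧ ∀ (Y N T : ℕ) (W : Finset ℤ) (a : ℕ → ℂ)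
  (V y : ℝ), 1 ≤ N → 4 * N ^ 2 ≤ Y → 1 ≤ T → T ≤ Y → In W T → Big W N a V → 1 ≤ y →
    YB W (4 * (Y : ℝ) ^ ε * T / N ^ 2) y →
      #W * V ^ 4 ≤ C * (Y : ℝ) ^ ε * (N ^ 4 + N ^ 3 * √y * #W)

def GCD_s : Prop := ∀ (N H : ℕ) (f : ℕ × ℕ), f ∈ tb H →
  #{p ∈ tb H ×ˢ Ioc N (2 * N) ×ˢ Ioc N (2 * N) |
    f.1 * p.2.1 * p.1.2 = p.1.1 * p.2.2 * f.2} ≤ 32 * N * (#f.1.divisors * #f.2.divisors)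

def SCH_s : Prop := ∀ ε : ℝ, 0 < ε → ∃ C : ℝ, 0 < C ∧ ∀ (Y N T H : ℕ) (W : Finset ℤ) (a : ℕ → ℂ)
  (V : ℝ), 1 ≤ N → 1 ≤ H → H ≤ Y → In W T → Big W N a V →
    SF W (tb H) * V ^ 2 ≤ C * (Y : ℝ) ^ ε * (#W * (T + N * H ^ 2) * N)

def DU1_s : Prop := ∃ C : ℝ, 0 < C ∧ ∀ (M : ℕ) (W : Finset ℤ) (I : Finset ℕ) (c : ℕ → ℕ → ℂ)
  (β : ℤ → ℂ), 1 ≤ M → (∀ t, ‖β t‖ ≤ 1) →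
    ‖∑ t ∈ W, β t * ∑ b ∈ I, ∑ m ∈ Ioc M (2 * M), c m b * ei (t * (Real.log m - Real.log b))‖ ^ 2 ≤
      (∑ b ∈ I, ∑ m ∈ Ioc M (2 * M), ‖c m b‖ ^ 2) * (C * M * #I * #W + √(DS W I) * √(HS W M))

def DUA_s : Prop := ∀ ε : ℝ, 0 < ε → ∃ C : ℝ, 0 < C ∧ ∀ (Y N T H : ℕ) (W : Finset ℤ) (a : ℕ → ℂ)
  (V y y' : ℝ), 4 ≤ N → 1 ≤ H → 4 * N * H ≤ Y → 1 ≤ T → T ≤ Y → In W T → Big W N a V → 1 ≤ y →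
    1 ≤ y' → YB W H y → YB W (32 * (Y : ℝ) ^ ε * T / (N * H)) y' →
      SF W (tb H) * V ^ 2 ≤
        C * (Y : ℝ) ^ ε * (N * (N * H ^ 2 * #W + H * (#W : ℝ) ^ 2 * √(N * y * y')))

def MAX_s : Prop := ∀ (W : Finset ℤ) (L : ℝ), 1 ≤ #W → 1 ≤ L → ∃ (H : ℕ) (y : ℝ), 1 ≤ H ∧
  (H : ℝ) ≤ L ∧ 1 ≤ y ∧ YB W L y ∧ y * H * (#W : ℝ) ^ 2 ≤ 2 * SF W (tb H) ∧
    SF W (tb H) ≤ SF W (fr H)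

def L2K_s : Prop := ∀ ε : ℝ, 0 < ε → ∃ C : ℝ, 0 < C ∧ ∀ (Y H T : ℕ) (W : Finset ℤ) (y : ℝ),
  1 ≤ H → H ≤ Y → T ≤ Y → In W T → 1 ≤ #W → 0 ≤ y → y * H * (#W : ℝ) ^ 2 ≤ 2 * SF W (fr H) →
    y ≤ C * (Y : ℝ) ^ ε ∨ y ^ 2 * #W ≤ (C * (Y : ℝ) ^ ε * H) ^ 2 ∨
      y ^ 12 * (#W : ℝ) ^ 5 ≤ (C * (Y : ℝ) ^ ε) ^ 12 * T ^ 3

/-- the five alternatives -/
def Alt (E N T R V : ℝ) : Prop :=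
  V ^ 4 ≤ E * N ^ 3 ∨ R * V ^ 4 ≤ E * N ^ 4 ∨ R * V ^ 10 ≤ E * T * N ^ 6 ∨
    R ^ 3 * V ^ 44 ≤ E * T ^ 2 * N ^ 32 ∨ R ^ 5 * V ^ 96 ≤ E * T ^ 3 * N ^ 72

def CORE_s : Prop := ∀ ε : ℝ, 0 < ε → ∃ C : ℝ, 0 < C ∧ ∀ (Y N T : ℕ) (W : Finset ℤ) (a : ℕ → ℂ)
  (V : ℝ), 4 ≤ N → 4 * N ^ 2 ≤ Y → 1 ≤ T → 1024 * T ^ 2 ≤ Y → In W T → 1 ≤ #W → Big W N a V →
    Alt (C * (Y : ℝ) ^ ε) N T #W V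

end Pool.Agent.MP_71ac24_nt.ZY
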