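import Pool.Agent.MP_71ac24_nt.ZY.DefsA
import Pool.Agent.MP_71ac24_nt.ZD.RLVB

/-! A large values estimate for squares: statements in logarithmic form. -/

namespace Pool.Agent.MP_71ac24_nt.ZY
open Finset Real Filter
open Pool.Agent.MP_a404e6_nt.W
open Pool.Agent.MP_71ac24_nt.ZD (AA AB AD LVG LVA_s)

/-- the five alternatives in logarithmic form -/
def SQ (e t n r a : ℝ) : Prop :=
  4 * a ≤ e + 3 * n ∨ r + 4 * a ≤ e + 4 * n ∨ r + 10 * a ≤ e + t + 6 * n ∨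
    3 * r + 44 * a ≤ e + 2 * t + 32 * n ∨ 5 * r + 96 * a ≤ e + 3 * t + 72 * n

/-- the exponent from the estimate for squares -/
noncomputable def AC (σ : ℝ) : ℝ := max 2 (3 / (11 * σ - 7))

/-- the final exponent -/
noncomputable def AE (σ : ℝ) : ℝ := if σ < 19 / 25 then AA σ else
  max 2 (min (3 / (11 * σ - 7)) (max (9 / (7 * σ - 1)) (17 / (59 * σ - 37))))

def LOG_s : Prop := ∀ ε : ℝ, 0 < ε → ∀ᶠ L : ℝ in atTop, ∀ (g : AF) (a0 n t : ℝ) (T : ℕ),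
  3 ≤ a0 → 0 ≤ n → n ≤ L → 0 ≤ t → t ≤ L → (T : ℝ) ≤ exp t → Bd g (exp (ε / 200 * L)) →
    Sp g a0 n → ∀ r a : ℝ, exp r ≤ cnt T (fun s => ‖Dp g s‖) (exp a) → SQ (ε * L) t n r a

def LPA_s : Prop := ∀ t P n σ r a e : ℝ, 0 ≤ e → 0 ≤ t → 19 / 25 ≤ σ → σ ≤ 1 → AC σ * t ≤ P →
  P / 6 ≤ n → n ≤ P / 4 → σ * n - e ≤ a → r ≤ e + t → SQ e t n r a → r ≤ 1000 * e + (1 - σ) * P

def LPB_s : Prop := ∀ t P m σ r a e : ℝ, 0 ≤ e → 0 ≤ t → 19 / 25 ≤ σ → σ ≤ 1 → AC σ * t ≤ P →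
  3 * P / 8 ≤ m → m ≤ P / 2 → σ * m - e ≤ a → r ≤ e + t → ZD.DS 2 e t m t r a →
    r ≤ 1000 * e + (1 - σ) * P

def LVC_s : Prop := LVG fun σ => if σ < 19 / 25 then AA σ else AC σ

def FIN_s : Prop := ZD.Adm AE

end Pool.Agent.MP_71ac24_nt.ZY
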