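import Pool.Agent.MP_71ac24_nt.ZY.DefsA

namespace Pool.Agent.MP_71ac24_nt.ZY
open Finset Real
open scoped ComplexConjugate
open Pool.Agent.MP_71ac24_nt.H14 (ei ei_add norm_ei ei_zero conj_ei norm_ei_sub)
open Pool.Agent.MP_71ac24_nt.H17 Pool.Agent.MP_71ac24_nt.H17R

-- helper lemmas of this row: prefix yl2k_

lemma yl2k_sf (ε : ℝ) (hε : 0 < ε) : ∃ C : ℝ, 0 < C ∧ ∀ (Y H T : ℕ) (W : Finset ℤ), 1 ≤ H → H ≤ Y →
    T ≤ Y → In W T → 1 ≤ #W → SF W (fr H) ≤ C * (Y : ℝ) ^ ε * (H * BD 2 H #W T) := by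
  obtain ⟨η, hη, rfl⟩ : ∃ η : ℝ, 0 < η ∧ ε = η * 5 := ⟨ε / 5, by positivity, by ring⟩
  obtain ⟨J0, hJ0⟩ := exists_nat_ge (1 / η)
  obtain ⟨J, kJ, J0J⟩ : ∃ J, 2 ≤ J ∧ J0 ≤ J := ⟨2 + J0, by omega, by omega⟩
  obtain ⟨C, C1, hC⟩ := dsl_tau J hη
  refine ⟨3 * (26 * (J + 1) * C ^ 4) * 2, by positivity, fun Y H T W H1 HY TY hW W1 => ?_⟩
  have Y1 : (1 : ℝ) ≤ Y := by exact_mod_cast H1.trans HY
  obtain ⟨y, hy⟩ : ∃ y, y = (Y : ℝ) ^ η := ⟨_, rfl⟩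
  have y1 : 1 ≤ y := hy ▸ Real.one_le_rpow Y1 hη.le
  have y5 : (Y : ℝ) ^ (η * 5) = y ^ 5 := by
    rw [hy, Real.rpow_mul (by linarith only [Y1]), ← Real.rpow_natCast]
    norm_num
  have B0 : 0 ≤ BD 2 H #W T := BD_nonneg 2 (by positivity) (by positivity) (by positivity)
  have t1 : 1 + (T : ℝ) ^ (1 / (2 * J) : ℝ) ≤ 2 * y := by
    have J1 : (1 : ℝ) ≤ J := by exact_mod_cast one_le_two.trans kJ
    have e1 : (1 / (2 * J) : ℝ) ≤ η := by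
      have : (J0 : ℝ) ≤ J := by exact_mod_cast J0J
      rw [div_le_iff₀ hη] at hJ0
      rw [div_le_iff₀ (by positivity)]
      nlinarith only [hJ0, J1, this]
    have := (Real.rpow_le_rpow (Nat.cast_nonneg T) (show (T : ℝ) ≤ Y by exact_mod_cast TY)
      (show (0 : ℝ) ≤ 1 / (2 * J) by positivity)).trans (Real.rpow_le_rpow_of_exponent_le Y1 e1)
    linarith only [hy, y1, this]
  refine (dsl_one one_le_two kJ H1 (HY.trans (Nat.le_mul_of_pos_left Y two_pos))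
    (one_le_mul_of_one_le_of_one_le C1 y1) (hy ▸ hC Y (H1.trans HY)) W hW W1).trans ?_
  refine (mul_le_mul_of_nonneg_right (mul_le_mul_of_nonneg_left t1 (by positivity))
    (by positivity)).trans (le_of_eq ?_)
  rw [y5]
  ring

lemma yl2k_bd {h R T : ℝ} (R0 : 0 ≤ R) (T0 : 0 ≤ T) : ∃ r s : ℝ, 0 ≤ r ∧ 0 ≤ s ∧ R = r ^ 12 ∧
    T = s ^ 4 ∧ BD 2 h R T = r ^ 24 + h * r ^ 18 + s * r ^ 19 := by
  have e : ∀ n : ℕ, (R ^ (1 / 12 : ℝ)) ^ n = R ^ (n / 12 : ℝ) := fun n => by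
    rw [← Real.rpow_natCast, ← Real.rpow_mul R0]
    ring_nf
  refine ⟨R ^ (1 / 12 : ℝ), T ^ (1 / 4 : ℝ), by positivity, by positivity, ?_, ?_, ?_⟩
  · rw [e]; norm_num
  · rw [← Real.rpow_natCast, ← Real.rpow_mul T0]; norm_num
  · rw [e, e, e, BD, ← Real.rpow_natCast R 2]; norm_num

theorem yl2k_row : L2K_s := by
  intro ε hε
  obtain ⟨C, C0, hC⟩ := yl2k_sf ε hε
  refine ⟨6 * C, by positivity, fun Y H T W y H1 HY TY hW W1 y0 h => ?_⟩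
  have h1 := hC Y H T W H1 HY TY hW W1
  have H0 : (0 : ℝ) < H := by exact_mod_cast H1
  have R1 : (1 : ℝ) ≤ #W := by exact_mod_cast W1
  obtain ⟨r, s, r0, s0, e1, e2, e3⟩ := yl2k_bd (h := H) (by linarith : (0 : ℝ) ≤ #W)
    (Nat.cast_nonneg T)
  have c0 : 0 ≤ C * (Y : ℝ) ^ ε := by positivity
  rw [mul_assoc 6 C]
  generalize C * (Y : ℝ) ^ ε = c at *
  rw [e3] at h1
  rw [e1] at h R1
  rw [e1, e2]
  have r1 : 0 < r := r0.lt_of_ne fun z => by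
    rw [← z] at R1
    norm_num at R1
  have h2 : y * r ^ 24 ≤ 2 * c * (r ^ 24 + H * r ^ 18 + s * r ^ 19) :=
    le_of_mul_le_mul_left (by linarith) H0
  by_cases a1 : y * r ^ 24 ≤ 6 * c * r ^ 24
  · exact Or.inl (le_of_mul_le_mul_right a1 (by positivity))
  by_cases a2 : y * r ^ 6 * r ^ 18 ≤ 6 * c * H * r ^ 18
  · have := pow_le_pow_left₀ (by positivity) (le_of_mul_le_mul_right a2 (by positivity)) 2
    exact Or.inr (Or.inl (by linarith))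
  have a3 : y * r ^ 5 * r ^ 19 ≤ 6 * c * s * r ^ 19 := by linarith
  have := pow_le_pow_left₀ (by positivity) (le_of_mul_le_mul_right a3 (by positivity)) 12
  exact Or.inr (Or.inr (by linarith))

end Pool.Agent.MP_71ac24_nt.ZY
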